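import Mathlib

/-! Effective sets, parts and reductions of monotone demand functions. -/

set_option autoImplicit false

namespace Pool.Agent.Lib.MP_ba7882_co

open Finset

variable {E : Type} [DecidableEq E]

/-- `X` has demand at least two, larger than the demand of each proper subset. -/
def Eff (G : Finset E → ℕ) (X : Finset E) : Prop := 2 ≤ G X ∧ ∀ Y, Y ⊂ X → G Y < G X

/-- Monotone, and supermodular on intersecting effective sets. -/
structure Good (G : Finset E → ℕ) : Prop where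
  mono : Monotone G
  sup : ∀ X Y, Eff G X → Eff G Y → (X ∩ Y).Nonempty → G X + G Y ≤ G (X ∩ Y) + G (X ∪ Y)

/-- The demand left after giving the set `K` one new colour. -/
def red (G : Finset E → ℕ) (K : Finset E) (Y : Finset E) : ℕ := max (G (Y \ K)) (G (Y ∪ K) - 1)

/-- `u` and `w` lie in a common effective set. -/
def Rel (G : Finset E → ℕ) (u w : E) : Prop := ∃ X, Eff G X ∧ u ∈ X ∧ w ∈ X

variable {G : Finset E → ℕ} {K X Y Z : Finset E} {u v w : E}

omit [DecidableEq E] in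
theorem exists_eff (hG : Monotone G) (h : 2 ≤ G Y) : ∃ Z ⊆ Y, Eff G Z ∧ G Z = G Y := by
  obtain ⟨Z, hZ, hm⟩ := exists_min_image (Y.powerset.filter fun Z => G Z = G Y) card
    ⟨Y, mem_filter.2 ⟨mem_powerset_self Y, rfl⟩⟩
  obtain ⟨h1, h2⟩ := mem_filter.1 hZ
  refine ⟨Z, mem_powerset.1 h1, ⟨h2 ▸ h, fun W hW => lt_of_le_of_ne (hG hW.1) fun e => ?_⟩, h2⟩
  exact (card_lt_card hW).not_ge (hm W (mem_filter.2
    ⟨mem_powerset.2 (hW.1.trans (mem_powerset.1 h1)), e.trans h2⟩))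

omit [DecidableEq E] in
theorem Eff.eq_of_le (h : Eff G X) (h1 : Y ⊆ X) (h2 : G X ≤ G Y) : Y = X :=
  by_contra fun e => (h.2 Y (lt_of_le_of_ne h1 e)).not_ge h2

theorem Eff.inter_lt (hX : Eff G X) (h : ¬ X ⊆ Y) : G (X ∩ Y) < G X :=
  hX.2 _ ⟨inter_subset_left, fun e => h (e.trans inter_subset_right)⟩

theorem Eff.union (hG : Good G) (hX : Eff G X) (hY : Eff G Y) (h : (X ∩ Y).Nonempty) :
    Eff G (X ∪ Y) := by
  by_cases h1 : X ⊆ Y
  · rwa [union_eq_right.2 h1]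
  by_cases h2 : Y ⊆ X
  · rwa [union_eq_left.2 h2]
  have h3 := hG.sup X Y hX hY h
  have h4 := hX.inter_lt h1
  have h5 := inter_comm X Y ▸ hY.inter_lt h2
  obtain ⟨Z, z1, z2, z3⟩ := exists_eff hG.mono (hX.1.trans (hG.mono (subset_union_left (s₂ := Y))))
  have key : ∀ A B, Eff G A → G B < G Z → A ∪ B = X ∪ Y → A ⊆ Z := fun A B hA hB e => by
    by_contra hc
    obtain ⟨x, x1, x2⟩ := not_subset.1 fun h : Z ⊆ B => hB.not_ge (hG.mono h)
    have h6 := hG.sup A Z hA z2 ⟨x, mem_inter.2 ⟨(mem_union.1 (e ▸ z1 x1)).resolve_right x2, x1⟩⟩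
    have h7 := hA.inter_lt hc
    have h8 := hG.mono (union_subset (e ▸ subset_union_left : A ⊆ X ∪ Y) z1)
    omega
  rwa [← Subset.antisymm z1 (union_subset (key X Y hX (by omega) rfl)
    (key Y X hY (by omega) (union_comm _ _)))]

omit [DecidableEq E] in
theorem Rel.symm (h : Rel G u w) : Rel G w u := h.imp fun _ h => ⟨h.1, h.2.2, h.2.1⟩

theorem Rel.trans (hG : Good G) (h1 : Rel G u v) (h2 : Rel G v w) : Rel G u w := by
  obtain ⟨X, x1, x2, x3⟩ := h1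
  obtain ⟨Y, y1, y2, y3⟩ := h2
  exact ⟨_, x1.union hG y1 ⟨v, mem_inter.2 ⟨x3, y2⟩⟩, mem_union_left _ x2, mem_union_right _ y3⟩

theorem le_red (hG : Monotone G) (h1 : Z ⊆ Y) (h2 : Disjoint Z K) : G Z ≤ red G K Y :=
  (hG (subset_sdiff.2 ⟨h1, h2⟩)).trans (le_max_left _ _)

theorem le_red' (hG : Monotone G) (h : Z ⊆ Y ∪ K) : G Z ≤ red G K Y + 1 := by
  have h1 := hG h
  have h2 : G (Y ∪ K) - 1 ≤ red G K Y := le_max_right _ _
  omega

theorem red_eff (hG : Monotone G) (h : Eff (red G K) X) : Disjoint X K ∧ ∃ Z, Eff G Z ∧ X ⊆ Z ∧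
    (Z = X ∧ red G K X = G Z ∨ Z ⊆ X ∪ K ∧ red G K X + 1 = G Z) := by
  have h1 : Disjoint X K := sdiff_eq_self_iff_disjoint.1
    (h.eq_of_le sdiff_subset (by simp [red]))
  refine ⟨h1, ?_⟩
  have h0 := h.1
  rcases max_choice (G (X \ K)) (G (X ∪ K) - 1) with e | e
  · have e' : red G K X = G X := by rw [red, e, sdiff_eq_self_of_disjoint h1]
    exact ⟨X, ⟨e' ▸ h0, fun Y hY => (le_red hG Subset.rfl (h1.mono_left hY.1)).trans_lt
      (e' ▸ h.2 Y hY)⟩, Subset.rfl, Or.inl ⟨rfl, e'⟩⟩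
  · have e' : red G K X = G (X ∪ K) - 1 := e
    obtain ⟨Z, z1, z2, z3⟩ := exists_eff (Y := X ∪ K) hG (by omega)
    have h2 := le_red' (Z := Z) (Y := Z \ K) (K := K) hG (by simp)
    have h3 := h.eq_of_le (Y := Z \ K) (by grind) (by omega)
    exact ⟨Z, z2, h3 ▸ sdiff_subset, Or.inr ⟨z1, by omega⟩⟩

theorem Good.red (hG : Good G) (K : Finset E) : Good (red G K) := by
  refine ⟨fun X Y h => max_le_max (hG.mono (sdiff_subset_sdiff h Subset.rfl))
    (Nat.sub_le_sub_right (hG.mono (union_subset_union_left h)) 1), fun X Y hX hY h => ?_⟩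
  obtain ⟨x1, A, a1, a2, a3⟩ := red_eff hG.mono hX
  obtain ⟨y1, B, b1, b2, b3⟩ := red_eff hG.mono hY
  have h1 := hG.sup A B a1 b1 (h.mono (inter_subset_inter a2 b2))
  have hm := hG.mono
  rw [disjoint_left] at x1 y1
  rcases a3 with ⟨rfl, a3⟩ | ⟨a4, a3⟩ <;> rcases b3 with ⟨rfl, b3⟩ | ⟨b4, b3⟩
  · have := le_red (K := K) hm (Subset.refl (A ∩ B)) (disjoint_left.2 (by grind))
    have := le_red (K := K) hm (Subset.refl (A ∪ B)) (disjoint_left.2 (by grind))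
    omega
  · have := le_red (K := K) (Z := A ∩ B) (Y := A ∩ Y) hm (by grind) (disjoint_left.2 (by grind))
    have := le_red' (K := K) (Z := A ∪ B) (Y := A ∪ Y) hm (by grind)
    omega
  · have := le_red (K := K) (Z := A ∩ B) (Y := X ∩ B) hm (by grind) (disjoint_left.2 (by grind))
    have := le_red' (K := K) (Z := A ∪ B) (Y := X ∪ B) hm (by grind)
    omega
  · have := le_red' (K := K) (Z := A ∩ B) (Y := X ∩ Y) hm (by grind)
    have := le_red' (K := K) (Z := A ∪ B) (Y := X ∪ Y) hm (by grind)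
    omega

theorem Rel.of_red (hG : Good G) (h : Rel (red G K) u w) : Rel G u w ∧ u ∉ K ∧ w ∉ K := by
  obtain ⟨X, x1, x2, x3⟩ := h
  obtain ⟨h1, Z, z1, z2, -⟩ := red_eff hG.mono x1
  exact ⟨⟨Z, z1, z2 x2, z2 x3⟩, disjoint_left.1 h1 x2, disjoint_left.1 h1 x3⟩

theorem red_empty (G : Finset E → ℕ) : red G ∅ = G := by
  funext Y
  simp [red]

theorem red_comm (h : v ∉ K) : red (red G {v}) K = red (red G K) {v} := by
  funext Y
  have e1 : (Y \ K) \ {v} = (Y \ {v}) \ K := by grind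
  have e2 : Y \ K ∪ {v} = (Y ∪ {v}) \ K := by grind
  have e3 : (Y ∪ K) \ {v} = Y \ {v} ∪ K := by grind
  have e4 : Y ∪ K ∪ {v} = Y ∪ {v} ∪ K := by grind
  simp only [red, e1, e2, e3, e4]
  omega

theorem red_red (hG : Monotone G) (h' : ∀ w ∈ K, ¬ Rel G v w) :
    red (red G {v}) K = red G (insert v K) := by
  funext Y
  have e1 : (Y \ K) \ {v} = Y \ insert v K := by grind
  have e2 := hG (show Y \ K ∪ {v} ⊆ Y ∪ insert v K by grind)
  have e3 := hG (show (Y ∪ K) \ {v} ⊆ Y ∪ insert v K by grind)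
  have e4 : Y ∪ K ∪ {v} = Y ∪ insert v K := by grind
  have e5 : G (Y ∪ insert v K) ≤ 1 ∨ G (Y ∪ insert v K) ≤ G (Y \ K ∪ {v}) ∨
      G (Y ∪ insert v K) ≤ G ((Y ∪ K) \ {v}) := by
    rcases le_or_gt (G (Y ∪ insert v K)) 1 with h1 | h1
    · exact Or.inl h1
    obtain ⟨Z, z1, z2, z3⟩ := exists_eff hG h1
    by_cases hv : v ∈ Z
    · have : ∀ w ∈ K, w ∉ Z := fun w hw hz => h' w hw ⟨Z, z2, hv, hz⟩
      exact Or.inr (Or.inl (z3 ▸ hG (show Z ⊆ _ by grind)))
    · exact Or.inr (Or.inr (z3 ▸ hG (show Z ⊆ _ by grind)))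
  simp only [red, e1, e4]
  omega

theorem red_le_card (hG : Monotone G) {R : Finset E} (h : ∀ X, G X ≤ (X ∩ R).card)
    (hK : ∀ v ∈ K, ∀ w ∈ K, Rel G v w → v = w) (X : Finset E) :
    red G K X ≤ (X ∩ (R \ K)).card := by
  refine max_le ((h _).trans (card_le_card (by grind))) ?_
  rcases le_or_gt (G (X ∪ K)) 1 with h1 | h1
  · omega
  obtain ⟨Z, z1, z2, z3⟩ := exists_eff hG h1
  have h2 : (Z ∩ K).card ≤ 1 := card_le_one.2 fun a ha b hb => hK a (mem_inter.1 ha).2 b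
    (mem_inter.1 hb).2 ⟨Z, z2, (mem_inter.1 ha).1, (mem_inter.1 hb).1⟩
  have h3 := (card_le_card (show Z ∩ R ⊆ X ∩ (R \ K) ∪ Z ∩ K by grind)).trans (card_union_le _ _)
  have h4 := h Z
  omega

variable [Fintype E]

open Classical in
/-- The largest demand of an effective set through `u`, or one. -/
noncomputable def dd (G : Finset E → ℕ) (u : E) : ℕ :=
  max 1 ((univ.filter fun X => Eff G X ∧ u ∈ X).sup G)

theorem one_le_dd : 1 ≤ dd G u := le_max_left _ _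

theorem le_dd (h : Eff G X) (hu : u ∈ X) : G X ≤ dd G u := by
  classical
  exact (le_sup (f := G) (mem_filter.2 ⟨mem_univ X, h, hu⟩)).trans (le_max_right _ _)

theorem dd_le {n : ℕ} (h1 : 1 ≤ n) (h : ∀ X, Eff G X → u ∈ X → G X ≤ n) : dd G u ≤ n := by
  classical
  exact max_le h1 (Finset.sup_le fun X hX => h X (mem_filter.1 hX).2.1 (mem_filter.1 hX).2.2)

theorem dd_red_le (hG : Good G) : dd (red G K) u ≤ dd G u := by
  refine dd_le one_le_dd fun X hX hu => ?_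
  obtain ⟨-, Z, z1, z2, z3⟩ := red_eff hG.mono hX
  have := le_dd z1 (z2 hu)
  omega

theorem dd_red_lt (hG : Good G) (hw : w ∈ K) (h : Rel G u w) : dd (red G K) u < dd G u := by
  obtain ⟨A, a1, a2, a3⟩ := h
  have h1 := a1.1.trans (le_dd a1 a2)
  refine Nat.lt_of_le_pred (by omega) (dd_le (Nat.le_pred_of_lt h1) fun X hX hu => ?_)
  obtain ⟨h2, Z, z1, z2, ⟨rfl, z3⟩ | ⟨-, z3⟩⟩ := red_eff hG.mono hX
  · have h3 := z1.union hG a1 ⟨u, mem_inter.2 ⟨hu, a2⟩⟩
    have h4 := h3.2 Z ⟨subset_union_left, fun h =>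
      disjoint_left.1 h2 (h (mem_union_right _ a3)) hw⟩
    exact Nat.le_pred_of_lt (z3 ▸ h4.trans_le (le_dd h3 (mem_union_left _ hu)))
  · exact Nat.le_pred_of_lt (z3.le.trans (le_dd z1 (z2 hu)))

end Pool.Agent.Lib.MP_ba7882_co
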