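import Mathlib

/-! Edge colourings of bipartite multigraphs. -/

set_option autoImplicit false

namespace Pool.Agent.Lib.MP_ba7882_co

open Finset Function

theorem konig_reg {E γ : Type} [DecidableEq E] [Fintype γ] [DecidableEq γ] (a b : E → γ) (k : ℕ) :
    ∀ S : Finset E, (∀ x, (S.filter fun e => a e = x).card = k) →
      (∀ y, (S.filter fun e => b e = y).card = k) → ∃ φ : E → ℕ, (∀ e ∈ S, φ e < k) ∧
        ∀ e ∈ S, ∀ f ∈ S, φ e = φ f → a e = a f ∨ b e = b f → e = f := by
  induction k with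
  | zero =>
    intro S ha _
    have h : ∀ e ∈ S, False := fun e he =>
      card_ne_zero_of_mem (s := S.filter fun f => a f = a e) (mem_filter.2 ⟨he, rfl⟩) (ha (a e))
    exact ⟨fun _ => 0, fun e he => (h e he).elim, fun e he => (h e he).elim⟩
  | succ k ih =>
    intro S ha hb
    obtain ⟨g, g1, g2⟩ := (all_card_le_biUnion_card_iff_exists_injective
      fun x => (S.filter fun e => a e = x).image b).1 fun s => by
        have h1 := sum_card_fiberwise_eq_card_filter S s a
        have h2 := sum_card_fiberwise_eq_card_filter S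
          (s.biUnion fun x => (S.filter fun e => a e = x).image b) b
        simp only [ha, hb, sum_const, smul_eq_mul] at h1 h2
        refine Nat.le_of_mul_le_mul_right (h1.trans_le (le_of_le_of_eq
          (card_le_card (monotone_filter_right _ fun e he h => ?_)) h2.symm)) k.succ_pos
        exact mem_biUnion.2 ⟨_, h, mem_image_of_mem _ (mem_filter.2 ⟨he, rfl⟩)⟩
    choose m m1 m2 using fun x => mem_image.1 (g2 x)
    have m3 := fun x => (mem_filter.1 (m1 x)).2
    have h : ∀ (c : E → γ) (x y : γ), m x ∈ S.filter (fun e => c e = y) →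
        (∀ x', c (m x') = y → x' = x) → (S.filter fun e => c e = y).card = k + 1 →
        ((S \ univ.image m).filter fun e => c e = y).card = k := fun c x y h1 h2 h3 => by
      have : ((S \ univ.image m).filter fun e => c e = y) =
          (S.filter fun e => c e = y).erase (m x) := by
        ext e
        simp only [mem_filter, mem_sdiff, mem_image, mem_univ, true_and, mem_erase, not_exists]
        exact ⟨fun h => ⟨(h.1.2 x ·.symm), h.1.1, h.2⟩,
          fun h => ⟨⟨h.2.1, fun x' e' => h.1 (h2 x' (e' ▸ h.2.2) ▸ e'.symm)⟩, h.2.2⟩⟩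
      rw [this, card_erase_of_mem h1, h3, Nat.add_sub_cancel]
    obtain ⟨φ, h1, h2⟩ := ih (S \ univ.image m)
      (fun x => h a x x (m1 x) (fun x' e => (m3 x').symm.trans e) (ha x)) fun y => by
        obtain ⟨x, rfl⟩ := Finite.surjective_of_injective g1 y
        exact h b x _ (mem_filter.2 ⟨(mem_filter.1 (m1 x)).1, m2 x⟩)
          (fun x' e => g1 ((m2 x').symm.trans e)) (hb _)
    refine ⟨fun e => if e ∈ univ.image m then k else φ e, fun e he => ?_,
      fun e he f hf e1 e2 => ?_⟩
    · beta_reduce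
      split_ifs with e1
      · exact k.lt_succ_self
      · exact (h1 e (mem_sdiff.2 ⟨he, e1⟩)).trans k.lt_succ_self
    · beta_reduce at e1
      split_ifs at e1 with e3 e4 e4
      · obtain ⟨x, -, rfl⟩ := mem_image.1 e3
        obtain ⟨y, -, rfl⟩ := mem_image.1 e4
        rw [m3, m3, m2, m2] at e2
        exact congrArg m (e2.elim id fun e => g1 e)
      · exact absurd e1 (h1 f (mem_sdiff.2 ⟨hf, e4⟩)).ne'
      · exact absurd e1 (h1 e (mem_sdiff.2 ⟨he, e3⟩)).ne
      · exact h2 e (mem_sdiff.2 ⟨he, e3⟩) f (mem_sdiff.2 ⟨hf, e4⟩) e1 e2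

theorem card_fst {γ : Type} [Fintype γ] [DecidableEq γ] {k : ℕ} (σ : Equiv.Perm (γ × Fin k))
    (y : γ) : (univ.filter fun e => (σ e).1 = y).card = k := by
  rw [card_bijective σ σ.bijective (t := {y} ×ˢ univ) fun e => by simp [eq_comm, Prod.ext_iff]]
  simp

theorem konig {E γ : Type} [Finite E] [Fintype γ] [DecidableEq γ] {k : ℕ} {l ρ : E → γ × Fin k}
    (hl : Injective l) (hρ : Injective ρ) : ∃ φ : E → ℕ, (∀ e, φ e < k) ∧
      ∀ e f, φ e = φ f → (l e).1 = (l f).1 ∨ (ρ e).1 = (ρ f).1 → e = f := by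
  obtain ⟨σ, hσ⟩ := Equiv.Perm.exists_extending_pair _ _ hl hρ
  obtain ⟨φ, h1, h2⟩ := konig_reg (fun e : γ × Fin k => e.1) (fun e => (σ e).1) k univ
    (card_fst 1) (card_fst σ)
  exact ⟨fun e => φ (l e), fun e => h1 _ (mem_univ _), fun e f e1 e2 =>
    hl (h2 _ (mem_univ _) _ (mem_univ _) e1 (by rwa [hσ, hσ]))⟩

end Pool.Agent.Lib.MP_ba7882_co
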