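import Mathlib

/-! Kernels for an order and a partition into chains, and one round of the colouring. -/

set_option autoImplicit false

namespace Pool.Agent.Lib.MP_ba7882_co

open Finset

variable {E β : Type} [DecidableEq E] (lt : E → E → Prop) (b : E → β) (q : E → ℕ)

/-- `M` is a kernel of `A`. -/
def PKer (A M : Finset E) : Prop :=
  M ⊆ A ∧ (∀ x ∈ M, ∀ y ∈ M, ¬ lt x y) ∧ Set.InjOn b M ∧
    ∀ e ∈ A, e ∉ M → ∃ f ∈ M, lt f e ∨ b f = b e ∧ q f < q e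

variable {lt b q} {A : Finset E}

omit [DecidableEq E] in
theorem exists_min (hi : ∀ x, ¬ lt x x) (ht : ∀ x y z, lt x y → lt y z → lt x z) (B : Finset E)
    {e : E} (he : e ∈ B) : ∃ f ∈ B, (∀ g ∈ B, ¬ lt g f) ∧ (f = e ∨ lt f e) := by
  classical
  obtain ⟨f, hf, hm⟩ := exists_min_image (B.filter fun f => f = e ∨ lt f e)
    (fun f => (B.filter fun g => lt g f).card) ⟨e, mem_filter.2 ⟨he, Or.inl rfl⟩⟩
  obtain ⟨f1, f2⟩ := mem_filter.1 hf
  refine ⟨f, f1, fun g hg h => (hm g (mem_filter.2 ⟨hg, Or.inr ?_⟩)).not_gt (card_lt_card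
    ⟨monotone_filter_right _ fun x _ hx => ht _ _ _ hx h,
      fun h' => hi g (mem_filter.1 (h' (mem_filter.2 ⟨hg, h⟩))).2⟩), f2⟩
  exact f2.elim (fun e => e ▸ h) (ht _ _ _ h)

theorem improve (hi : ∀ x, ¬ lt x x) (ht : ∀ x y z, lt x y → lt y z → lt x z)
    (hq : ∀ e ∈ A, ∀ f ∈ A, b e = b f → q e = q f → e = f) (B : Finset E) : B ⊆ A →
    (∀ e ∈ A, e ∉ B → ∃ f ∈ B, (∀ g ∈ B, ¬ lt g f) ∧ b f = b e ∧ q f < q e) →
    ∃ M, PKer lt b q A M ∧ ∀ f ∈ B, (∀ g ∈ B, ¬ lt g f) → ∃ x ∈ M, b x = b f := by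
  induction B using Finset.strongInduction with
  | H B ih =>
  intro hB h
  classical
  by_cases hc : ∃ e ∈ B, ∃ f ∈ B, (∀ g ∈ B, ¬ lt g e) ∧ (∀ g ∈ B, ¬ lt g f) ∧ b e = b f ∧ q e < q f
  · obtain ⟨e, e1, f, f1, e2, f2, h1, h2⟩ := hc
    have h3 : e ∈ B.erase f := mem_erase.2 ⟨by rintro rfl; omega, e1⟩
    obtain ⟨M, m1, m2⟩ := ih _ (erase_ssubset f1) ((erase_subset _ _).trans hB) fun x hx hx' => by
      by_cases h4 : x ∈ B
      · exact ⟨e, h3, by grind⟩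
      obtain ⟨y, y1, y2, y3, y4⟩ := h x hx h4
      by_cases h5 : y = f
      · exact ⟨e, h3, by grind⟩
      · exact ⟨y, by grind⟩
    refine ⟨M, m1, fun x hx hx' => ?_⟩
    by_cases h5 : x = f
    · exact h5 ▸ h1 ▸ m2 e h3 (by grind)
    · exact m2 x (by grind) (by grind)
  · push Not at hc
    refine ⟨B.filter fun f => ∀ g ∈ B, ¬ lt g f, ⟨(filter_subset _ _).trans hB, by grind,
      fun x hx y hy e => ?_, fun e he he' => ?_⟩, fun f hf h => ⟨f, mem_filter.2 ⟨hf, h⟩, rfl⟩⟩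
    · obtain ⟨x1, x2⟩ := mem_filter.1 hx
      obtain ⟨y1, y2⟩ := mem_filter.1 hy
      exact hq x (hB x1) y (hB y1) e (le_antisymm (hc y y1 x x1 y2 x2 e.symm) (hc x x1 y y1 x2 y2 e))
    · by_cases h4 : e ∈ B
      · obtain ⟨f, f1, f2, f3⟩ := exists_min hi ht B h4
        exact ⟨f, mem_filter.2 ⟨f1, f2⟩, Or.inl (f3.resolve_left (by grind))⟩
      · obtain ⟨f, f1, f2, f3⟩ := h e he h4
        exact ⟨f, mem_filter.2 ⟨f1, f2⟩, Or.inr f3⟩

/-- Deleting the upper part of one chain costs a kernel at most one element. -/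
theorem shrink (hi : ∀ x, ¬ lt x x) (ht : ∀ x y z, lt x y → lt y z → lt x z)
    (hq : ∀ e ∈ A, ∀ f ∈ A, b e = b f → q e = q f → e = f) {A' M : Finset E}
    (hM : PKer lt b q A M) (hA : A' ⊆ A) (h1 : ∀ e ∈ A, e ∉ A' → ∀ f ∈ A, f ∉ A' → b e = b f)
    (h2 : ∀ e ∈ A, e ∉ A' → ∀ f ∈ A', b f = b e → q f < q e) :
    ∃ M', PKer lt b q A' M' ∧ M.card ≤ M'.card + 1 := by
  classical
  obtain ⟨m1, m2, m3, m4⟩ := hM
  obtain ⟨B, hB⟩ : ∃ B : Finset E, ∀ e, e ∈ B ↔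
      e ∈ A' ∧ ∀ f ∈ M, f ∈ A' → b f = b e → ¬ q f < q e :=
    ⟨A'.filter fun e => ∀ f ∈ M, f ∈ A' → b f = b e → ¬ q f < q e, fun _ => mem_filter⟩
  have h3 : ∀ e ∈ M, e ∈ A' → e ∈ B ∧ ∀ g ∈ B, ¬ lt g e := fun e he he' => by
    refine ⟨(hB e).2 ⟨he', fun f hf _ h h' => h'.ne (congrArg q (m3 hf he h))⟩, fun g hg h => ?_⟩
    obtain ⟨g1, g2⟩ := (hB g).1 hg
    obtain ⟨x, hx, h' | h'⟩ := m4 g (hA g1) fun h' => m2 g h' e he h
    · exact m2 x hx e he (ht _ _ _ h' h)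
    · exact (h2 x (m1 hx) (fun h'' => g2 x hx h'' h'.1 h'.2) g g1 h'.1.symm).not_gt h'.2
  obtain ⟨M', k1, k2⟩ := improve (A := A') hi ht (fun e he f hf => hq e (hA he) f (hA hf)) B
    (fun e he => ((hB e).1 he).1) fun e he he' => by
      obtain ⟨f, f1, f2, f3, f4⟩ : ∃ f ∈ M, f ∈ A' ∧ b f = b e ∧ q f < q e := by grind
      exact ⟨f, (h3 f f1 f2).1, (h3 f f1 f2).2, f3, f4⟩
  refine ⟨M', k1, ?_⟩
  have h4 : (M ∩ A').card ≤ M'.card := by
    rw [← card_image_of_injOn (m3.mono (coe_subset.2 inter_subset_left))]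
    refine (card_le_card fun y hy => ?_).trans (card_image_le (f := b))
    obtain ⟨e, he, rfl⟩ := mem_image.1 hy
    have h5 := h3 e (mem_inter.1 he).1 (mem_inter.1 he).2
    exact mem_image.2 (k2 e h5.1 h5.2)
  have h5 : (M \ A').card ≤ 1 := card_le_one.2 fun x hx y hy =>
    m3 (mem_sdiff.1 hx).1 (mem_sdiff.1 hy).1 (h1 x (m1 (mem_sdiff.1 hx).1) (mem_sdiff.1 hx).2 y
      (m1 (mem_sdiff.1 hy).1) (mem_sdiff.1 hy).2)
  have := card_sdiff_add_card_inter M A'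
  omega

/-- Labels on the chains: positive, different inside a chain, and evenly spread. -/
def Lab (b : E → β) (r : ℕ) (R : Finset E) (q : E → ℕ) : Prop :=
  (∀ e ∈ R, 1 ≤ q e) ∧ (∀ e ∈ R, ∀ f ∈ R, b e = b f → q e = q f → e = f) ∧
    ∀ i, (R.filter fun e => q e ≤ i).card ≤ i * r

theorem stop [Fintype β] (hi : ∀ x, ¬ lt x x) (ht : ∀ x y z, lt x y → lt y z → lt x z) {r : ℕ}
    {R : Finset E} (hq : Lab b r R q) (hA : A ⊆ R) : ∃ (D : E → Prop) (M : Finset E),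
      M ⊆ A ∧ (∀ x ∈ M, ∀ y ∈ M, ¬ lt x y) ∧ Set.InjOn b M ∧ M.card ≤ r ∧
      (∀ e ∈ A, e ∉ M → D e ∨ ∃ f ∈ M, lt f e ∨ b f = b e ∧ q f < q e) ∧
      (∀ e, D e → 2 ≤ q e) ∧ (∀ e ∈ R, ∀ f, b e = b f → q e + 1 = q f → D f → D e) ∧
      ∀ e ∈ R, D e → M.card = r ∧ ∀ x ∈ M, q e < q x → ∃ y ∈ R, b y = b x ∧ q y = q e ∧ ¬ D y := by
  classical
  obtain ⟨B, ix, i1, i2⟩ : ∃ (B : ℕ) (ix : β → ℕ), Function.Injective ix ∧ ∀ y, ix y < B :=
    ⟨_, fun y => Fintype.equivFin β y,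
      Fin.val_injective.comp (Fintype.equivFin β).injective, fun y => Fin.is_lt _⟩
  obtain ⟨D, hD⟩ : ∃ D : ℕ → E → Prop, ∀ n e, D n e ↔ ∃ i, 1 ≤ i ∧ i < q e ∧
      (∀ f ∈ R, b f = b e → q f ≠ i) ∧ n ≤ i * B + ix (b e) := ⟨_, fun _ _ => Iff.rfl⟩
  have hq' : ∀ n, ∀ e ∈ A.filter fun e => ¬ D n e, ∀ f ∈ A.filter fun e => ¬ D n e,
      b e = b f → q e = q f → e = f :=
    fun n e he f hf => hq.2.1 e (hA (mem_filter.1 he).1) f (hA (mem_filter.1 hf).1)
  obtain ⟨n, M, hM, h1, h2⟩ : ∃ n M, PKer lt b q (A.filter fun e => ¬ D n e) M ∧ M.card ≤ r ∧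
      (M.card = r ∨ ∀ e ∈ R, ¬ D n e) := by
    by_contra hc
    have key : ∀ m n, m + n = (R.sup q + 1) * B →
        ∃ M, PKer lt b q (A.filter fun e => ¬ D n e) M ∧ r < M.card := by
      intro m
      induction m with
      | zero =>
        intro n hn
        obtain ⟨M, hM, -⟩ := improve hi ht (hq' n) _ Subset.rfl fun e he h => (h he).elim
        refine ⟨M, hM, not_le.1 fun h => hc ⟨n, M, hM, h, Or.inr fun e he h' => ?_⟩⟩
        obtain ⟨i, -, a1, -, a2⟩ := (hD n e).1 h'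
        have a3 := Nat.mul_le_mul_right B (a1.le.trans (le_sup (f := q) he))
        have := i2 (b e)
        rw [add_mul] at hn
        omega
      | succ m ih =>
        intro n hn
        obtain ⟨M, hM, h⟩ := ih (n + 1) (by omega)
        have a0 : ∀ e, ¬ D (n + 1) e → D n e → ∃ i, i < q e ∧
            (∀ f ∈ R, b f = b e → q f ≠ i) ∧ 1 ≤ i ∧ n = i * B + ix (b e) := fun e a1 a2 => by
          obtain ⟨i, a3, a4, a5, a6⟩ := (hD n e).1 a2
          exact ⟨i, a4, a5, a3, le_antisymm a6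
            (not_lt.1 fun a7 => a1 ((hD _ e).2 ⟨i, a3, a4, a5, a7⟩))⟩
        obtain ⟨M', k1, k2⟩ := shrink (A' := A.filter fun e => ¬ D n e) hi ht (hq' _) hM
          (monotone_filter_right _ fun e _ h h' => h (by
            obtain ⟨i, a3, a4, a5, a6⟩ := (hD _ e).1 h'
            exact (hD _ e).2 ⟨i, a3, a4, a5, by omega⟩))
          (fun e he he' f hf hf' => by
            obtain ⟨i, -, -, -, a1⟩ := a0 e (mem_filter.1 he).2 (by grind)
            obtain ⟨j, -, -, -, a2⟩ := a0 f (mem_filter.1 hf).2 (by grind)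
            have a3 := congrArg (· % B) (a1.symm.trans a2)
            simp only [Nat.mul_add_mod_self_right, Nat.mod_eq_of_lt (i2 _)] at a3
            exact i1 a3)
          fun e he he' f hf h' => by
            obtain ⟨i, a1, a2, a3, a4⟩ := a0 e (mem_filter.1 he).2 (by grind)
            refine lt_of_le_of_lt (not_lt.1 fun a5 => (mem_filter.1 hf).2 ?_) a1
            exact (hD n f).2 ⟨i, a3, a5, h' ▸ a2, h' ▸ a4.le⟩
        exact ⟨M', k1, not_le.1 fun h' => hc ⟨n, M', k1, h', Or.inl (by omega)⟩⟩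
    obtain ⟨M, hM, h⟩ := key _ 0 (add_zero _)
    have a1 : ∀ e ∈ M, ∃ f ∈ R.filter fun e => q e ≤ 1, b f = b e := fun e he => by
      obtain ⟨a2, a3⟩ := mem_filter.1 (hM.1 he)
      by_contra a4
      exact a3 ((hD 0 e).2 ⟨1, le_rfl, by grind, by grind, Nat.zero_le _⟩)
    have a2 := hq.2.2 1
    rw [← card_image_of_injOn hM.2.2.1] at h
    have := (card_le_card (show M.image b ⊆ (R.filter fun e => q e ≤ 1).image b from
      image_subset_iff.2 fun e he => mem_image.2 (a1 e he))).trans card_image_le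
    omega
  refine ⟨D n, M, hM.1.trans (filter_subset _ _), hM.2.1, hM.2.2.1, h1, fun e he he' => ?_,
    fun e h => ?_, fun e he f e1 e2 h => ?_, fun e he h => ⟨h2.resolve_right fun h' => h' e he h,
      fun x hx h' => ?_⟩⟩
  · exact or_iff_not_imp_left.2 fun h => hM.2.2.2 e (mem_filter.2 ⟨he, h⟩) he'
  · obtain ⟨i, a1, a2, -⟩ := (hD n e).1 h
    omega
  · obtain ⟨i, a1, a2, a3, a4⟩ := (hD n f).1 h
    have := a3 e he e1
    exact (hD n e).2 ⟨i, a1, by omega, e1 ▸ a3, e1 ▸ a4⟩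
  · obtain ⟨i, a1, a2, -, a4⟩ := (hD n e).1 h
    have a5 := (mem_filter.1 (hM.1 hx)).2
    have a6 := Nat.mul_le_mul_right B (Nat.succ_le_of_lt a2)
    have a7 := i2 (b e)
    rw [Nat.succ_mul] at a6
    obtain ⟨y, y1, y2, y3⟩ : ∃ y ∈ R, b y = b x ∧ q y = q e := by
      by_contra a8
      exact a5 ((hD n x).2 ⟨q e, by omega, h', by grind, by omega⟩)
    refine ⟨y, y1, y2, y3, fun a8 => a5 ?_⟩
    obtain ⟨j, c1, c2, c3, c4⟩ := (hD n y).1 a8
    exact (hD n x).2 ⟨j, c1, by omega, y2 ▸ c3, y2 ▸ c4⟩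

theorem round' [Fintype β] (hi : ∀ x, ¬ lt x x) (ht : ∀ x y z, lt x y → lt y z → lt x z) {r : ℕ}
    {R : Finset E} (hq : Lab b r R q) (hA : A ⊆ R) : ∃ (M : Finset E) (q' : E → ℕ),
      M ⊆ A ∧ (∀ x ∈ M, ∀ y ∈ M, ¬ lt x y) ∧ Set.InjOn b M ∧ M.card ≤ r ∧ Lab b r (R \ M) q' ∧
      (∀ e, q' e ≤ q e) ∧ ∀ e ∈ A, e ∉ M → (∃ f ∈ M, lt f e) ∨ q' e < q e := by
  classical
  obtain ⟨D, M, m1, m2, m3, m4, m5, d1, d2, d3⟩ := stop hi ht hq hA
  obtain ⟨q1, q2, q3⟩ := hq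
  have m0 : ∀ f ∈ M, f ∈ R := fun f hf => hA (m1 hf)
  obtain ⟨T, hT⟩ : ∃ T : E → Prop, ∀ e, T e ↔ D e ∨ ∃ f ∈ M, b f = b e ∧ q f < q e :=
    ⟨_, fun _ => Iff.rfl⟩
  have t1 : ∀ e, T e → 2 ≤ q e := fun e h => by
    rcases (hT e).1 h with h | ⟨f, hf, -, h⟩
    · exact d1 e h
    · have := q1 f (m0 f hf)
      omega
  have t2 : ∀ e ∈ R, e ∉ M → ∀ f, b e = b f → q e + 1 = q f → T f → T e :=
    fun e he he' f e1 e2 h => by
      rcases (hT f).1 h with h | ⟨g, hg, h, h'⟩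
      · exact (hT e).2 (Or.inl (d2 e he f e1 e2 h))
      · have := q2 g (m0 g hg) e he (h.trans e1.symm)
        exact (hT e).2 (Or.inr ⟨g, hg, h.trans e1.symm, by grind⟩)
  refine ⟨M, fun e => if T e then q e - 1 else q e, m1, m2, m3, m4, ⟨fun e he => ?_,
    fun e he f hf e1 e2 => ?_, fun i => ?_⟩, by grind, fun e he he' => ?_⟩
  · have := q1 e (mem_sdiff.1 he).1
    have := t1 e
    grind
  · have := q2 e (mem_sdiff.1 he).1 f (mem_sdiff.1 hf).1 e1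
    have := t1 e
    have := t1 f
    have := t2 e (mem_sdiff.1 he).1 (mem_sdiff.1 he).2 f e1
    have := t2 f (mem_sdiff.1 hf).1 (mem_sdiff.1 hf).2 e e1.symm
    grind
  · by_cases hc : ∃ e ∈ R, D e ∧ q e = i + 1
    · obtain ⟨e, he, e1, e2⟩ := hc
      obtain ⟨a1, a2⟩ := d3 e he e1
      have a3 : ∀ x ∈ M, ∃ y ∈ (R.filter fun e => q e ≤ i + 1) \
          (R \ M).filter fun e => (if T e then q e - 1 else q e) ≤ i, b y = b x := fun x hx => by
        rcases le_or_gt (q x) (i + 1) with h | h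
        · exact ⟨x, by grind, rfl⟩
        obtain ⟨y, y1, y2, y3, y4⟩ := a2 x hx (by omega)
        have : ¬ T y := fun h' => ((hT y).1 h').elim y4 fun ⟨g, hg, g1, g2⟩ => by
          have := congrArg q (m3 hg hx (g1.trans y2))
          omega
        exact ⟨y, by grind, y2⟩
      have a4 := (card_le_card (show M.image b ⊆ _ from
        image_subset_iff.2 fun e he => mem_image.2 (a3 e he))).trans card_image_le
      rw [card_image_of_injOn m3] at a4
      have a5 := card_sdiff_add_card_eq_card (show ((R \ M).filter fun e =>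
        (if T e then q e - 1 else q e) ≤ i) ⊆ R.filter fun e => q e ≤ i + 1 by grind)
      have a6 := q3 (i + 1)
      rw [add_mul] at a6
      beta_reduce
      omega
    · have a1 : ∀ e ∈ (R \ M).filter fun e => (if T e then q e - 1 else q e) ≤ i,
          ∃ g ∈ R.filter fun e => q e ≤ i, g = e ∨ g ∈ M ∧ b g = b e ∧ q e = i + 1 :=
        fun e he => by
          rcases le_or_gt (q e) i with h | h
          · exact ⟨e, by grind, Or.inl rfl⟩
          obtain ⟨g, g1, g2, g3⟩ := ((hT e).1 (by grind)).resolve_left (by grind)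
          exact ⟨g, by grind, Or.inr ⟨g1, g2, by grind⟩⟩
      choose! g g1 g2 using a1
      refine (card_le_card_of_injOn g g1 fun e he f hf h => ?_).trans (q3 i)
      have a2 := g2 e he
      have a3 := g2 f hf
      have a4 := mem_sdiff.1 (mem_filter.1 he).1
      have a5 := mem_sdiff.1 (mem_filter.1 hf).1
      have := q2 e a4.1 f a5.1
      grind
  · have a1 := t1 e
    have a2 := hT e
    have := m5 e he he'
    grind

end Pool.Agent.Lib.MP_ba7882_co
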