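import Pool.Agent.Lib.MP_ba7882_co.Link
import Pool.Agent.Lib.MP_ba7882_co.Konig
import Pool.Agent.Lib.MP_ba7882_co.Round

/-! List colouring of two gammoids. -/

set_option autoImplicit false

namespace Pool.Agent.Lib.MP_ba7882_co

open Finset Function

theorem two {E α β : Type} [DecidableEq E] (a : E → α) (p : E → ℕ) (b : E → β) (q : E → ℕ)
    (A : Finset E) (hp : ∀ e ∈ A, ∀ f ∈ A, a e = a f → p e = p f → e = f)
    (hq : ∀ e ∈ A, ∀ f ∈ A, b e = b f → q e = q f → e = f) :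
    ∃ M ⊆ A, Set.InjOn a M ∧ Set.InjOn b M ∧
      ∀ e ∈ A, e ∉ M → ∃ f ∈ M, a f = a e ∧ p f < p e ∨ b f = b e ∧ q f < q e := by
  obtain ⟨M, ⟨m1, m2, m3, m4⟩, -⟩ := improve (lt := fun f e => a f = a e ∧ p f < p e)
    (fun x h => h.2.false) (fun x y z h h' => ⟨h.1.trans h'.1, h.2.trans h'.2⟩) hq A Subset.rfl
    fun e he h => (h he).elim
  exact ⟨M, m1, fun x hx y hy e => hp x (m1 hx) y (m1 hy) e (le_antisymm
    (not_lt.1 fun h => m2 y hy x hx ⟨e.symm, h⟩) (not_lt.1 fun h => m2 x hx y hy ⟨e, h⟩)), m3, m4⟩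

variable {S V V' E γ δ : Type} {k : ℕ}

/-- The edges of one gammoid inside a larger bipartite multigraph with labels on both sides. -/
structure Emb (b : S ⊕ V × Option (Fin k) → V) (q : S ⊕ V × Option (Fin k) → ℕ)
    (rk : V × Option (Fin k) → ℕ) (j : S ⊕ V × Option (Fin k) → E) (a : E → γ) (p : E → ℕ)
    (c : E → δ) (t : E → ℕ) (u : V → γ) (v : V → δ) : Prop where
  hu : Injective u
  hv : Injective v
  h1 : ∀ w, a (j w) = u (b w) ∧ p (j w) = q w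
  h2 : ∀ y, c (j (.inr y)) = v y.1 ∧ t (j (.inr y)) = rk y
  h3 : ∀ e z, a e = u z → ∃ w, e = j w
  h4 : ∀ e z, c e = v z → ∃ o, e = j (.inr (z, o))
  r1 : ∀ z o o', rk (z, o) = rk (z, o') → o = o'
  r2 : ∀ z, rk (z, none) = 0
  r3 : ∀ z i j, rk (z, some j) < rk (z, some i) → q (.inr (z, some j)) ≤ k →
    q (.inr (z, some i)) ≤ k → q (.inr (z, some i)) ≤ q (.inr (z, some j))
  hj : Injective j

variable {D : V → V → Prop} {T : Set V} {s : S → V} {U U' : Finset S}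
  {b : S ⊕ V × Option (Fin k) → V} {q : S ⊕ V × Option (Fin k) → ℕ}
  {rk : V × Option (Fin k) → ℕ} {j : S ⊕ V × Option (Fin k) → E} {a : E → γ} {p : E → ℕ}
  {c : E → δ} {t : E → ℕ} {u : V → γ} {v : V → δ}

theorem Emb.fib {b' : S ⊕ V' × Option (Fin k) → V'} {q' : S ⊕ V' × Option (Fin k) → ℕ}
    {rk' : V' × Option (Fin k) → ℕ} {j' : S ⊕ V' × Option (Fin k) → E} {u' : V' → δ} {v' : V' → γ}
    (h : Emb b q rk j a p c t u v) (h' : Emb b' q' rk' j' c t a p u' v') (hs : Side D T s U b q)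
    (hγ : ∀ g, (∃ z, g = u z) ∨ ∃ z, g = v' z) {A : Finset E} (hA : ∀ w, j w ∈ A → Act T U w) :
    ∀ e ∈ A, ∀ f ∈ A, a e = a f → p e = p f → e = f := fun e he f hf e1 e2 => by
  rcases hγ (a e) with ⟨z, hz⟩ | ⟨z, hz⟩
  · obtain ⟨w, rfl⟩ := h.h3 e z hz
    obtain ⟨w', rfl⟩ := h.h3 f z (e1 ▸ hz)
    rw [(h.h1 w).1, (h.h1 w').1] at e1
    rw [(h.h1 w).2, (h.h1 w').2] at e2
    rw [hs.inj w w' (hA w he) (hA w' hf) (h.hu e1) e2]
  · obtain ⟨o, rfl⟩ := h'.h4 e z hz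
    obtain ⟨o', rfl⟩ := h'.h4 f z (e1 ▸ hz)
    rw [(h'.h2 _).2, (h'.h2 _).2] at e2
    rw [h'.r1 z o o' e2]

theorem Emb.step [Finite V] [DecidableEq S] (h : Emb b q rk j a p c t u v) (hs : Side D T s U b q)
    (hk : 0 < k) {M : Finset E} (hU : ∀ x ∈ U', x ∈ U ∧ j (.inl x) ∉ M)
    (m1 : ∀ w, j w ∈ M → Act T U w) (m2 : Set.InjOn a M) (m3 : Set.InjOn c M)
    (m4 : ∀ y : V × Option (Fin k), y.1 ∉ T → j (.inr y) ∉ M → ∃ f ∈ M,
      a f = a (j (.inr y)) ∧ p f < p (j (.inr y)) ∨ c f = c (j (.inr y)) ∧ t f < t (j (.inr y))) :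
    Linked D T s {x | j (.inl x) ∈ M} ∧ ∃ (b' : S ⊕ V × Option (Fin k) → V)
      (q' : S ⊕ V × Option (Fin k) → ℕ), Side D T s U' b' q' ∧ ∀ x, q' (.inl x) ≤ q (.inl x) ∧
        ((∃ f ∈ M, a f = a (j (.inl x)) ∧ p f < p (j (.inl x))) → q' (.inl x) < q (.inl x)) := by
  have key : ∀ w, ∀ f ∈ M, a f = a (j w) ∧ p f < p (j w) →
      ∃ f ∈ {w | j w ∈ M}, b f = b w ∧ q f < q w := fun w f hf ⟨e1, e2⟩ => by
    obtain ⟨w', rfl⟩ := h.h3 f _ (e1.trans (h.h1 w).1)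
    rw [(h.h1 w).1, (h.h1 w').1] at e1
    rw [(h.h1 w).2, (h.h1 w').2] at e2
    exact ⟨w', hf, h.hu e1, e2⟩
  obtain ⟨a1, b', q', a2, a3⟩ := hs.step (U' := U') (M := {w | j w ∈ M}) hk h.r2 h.r3 hU m1
    (fun w hw w' hw' e => h.hj (m2 hw hw' (by rw [(h.h1 w).1, (h.h1 w').1, e])))
    (fun z o o' h1 h2 => congrArg Prod.snd (Sum.inr_injective
      (h.hj (m3 h1 h2 (by rw [(h.h2 _).1, (h.h2 _).1])))))
    fun z hz o ho => by
      obtain ⟨f, hf, h1 | ⟨h1, h2⟩⟩ := m4 (z, o) hz ho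
      · exact Or.inl (key _ f hf h1)
      · obtain ⟨o', rfl⟩ := h.h4 f z (h1.trans (h.h2 _).1)
        rw [(h.h2 _).2, (h.h2 _).2] at h2
        exact Or.inr ⟨o', hf, h2⟩
  exact ⟨a1, b', q', a2, fun x => ⟨(a3 x).1, fun ⟨f, hf, h1⟩ => (a3 x).2 (key _ f hf h1)⟩⟩

variable {D' : V' → V' → Prop} {T' : Set V'} {s' : S → V'}

theorem round_two [Fintype S] [Fintype V] [Fintype V'] [DecidableEq S]
    {b' : S ⊕ V' × Option (Fin k) → V'} {q' : S ⊕ V' × Option (Fin k) → ℕ} (hk : 0 < k)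
    (h : Side D T s U b q) (h' : Side D' T' s' U b' q') {A : Finset S} (hA : A ⊆ U) :
    ∃ K ⊆ A, Linked D T s K ∧ Linked D' T' s' K ∧ ∃ (b₁ : S ⊕ V × Option (Fin k) → V)
      (q₁ : S ⊕ V × Option (Fin k) → ℕ) (b₂ : S ⊕ V' × Option (Fin k) → V')
      (q₂ : S ⊕ V' × Option (Fin k) → ℕ), Side D T s (U \ K) b₁ q₁ ∧ Side D' T' s' (U \ K) b₂ q₂ ∧
        ∀ x, q₁ (.inl x) ≤ q (.inl x) ∧ q₂ (.inl x) ≤ q' (.inl x) ∧
          (x ∈ A → x ∉ K → q₁ (.inl x) < q (.inl x) ∨ q₂ (.inl x) < q' (.inl x)) := by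
  classical
  obtain ⟨rk, r1, r2, r3⟩ := exists_rk q
  obtain ⟨rk', r1', r2', r3'⟩ := exists_rk q'
  obtain ⟨a, p, c, t, e1, e2⟩ : ∃ (a : S ⊕ V × Option (Fin k) ⊕ V' × Option (Fin k) → V ⊕ V')
      (p : _ → ℕ) (c : _ → V ⊕ V') (t : _ → ℕ),
      Emb b q rk (Sum.map id .inl) a p c t .inl .inl ∧
        Emb b' q' rk' (Sum.map id .inr) c t a p .inr .inr := by
    refine ⟨Sum.elim (fun x => .inl (b (.inl x)))
        (Sum.elim (fun y => .inl (b (.inr y))) fun y => .inr y.1),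
      Sum.elim (fun x => q (.inl x)) (Sum.elim (fun y => q (.inr y)) rk'),
      Sum.elim (fun x => .inr (b' (.inl x)))
        (Sum.elim (fun y => .inl y.1) fun y => .inr (b' (.inr y))),
      Sum.elim (fun x => q' (.inl x)) (Sum.elim rk fun y => q' (.inr y)),
      ⟨Sum.inl_injective, Sum.inl_injective, ?_, fun _ => ⟨rfl, rfl⟩, ?_, ?_, r1, r2, r3,
        injective_id.sumMap Sum.inl_injective⟩,
      ⟨Sum.inr_injective, Sum.inr_injective, ?_, fun _ => ⟨rfl, rfl⟩, ?_, ?_, r1', r2', r3',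
        injective_id.sumMap Sum.inr_injective⟩⟩
    · rintro (x | y) <;> exact ⟨rfl, rfl⟩
    · rintro (x | y | y) z e
      exacts [⟨.inl x, rfl⟩, ⟨.inr y, rfl⟩, by cases e]
    · rintro (x | y | y) z e <;> cases e
      exact ⟨y.2, rfl⟩
    · rintro (x | y) <;> exact ⟨rfl, rfl⟩
    · rintro (x | y | y) z e
      exacts [⟨.inl x, rfl⟩, (by cases e), ⟨.inr y, rfl⟩]
    · rintro (x | y | y) z e <;> cases e
      exact ⟨y.2, rfl⟩
  obtain ⟨B, hB⟩ : ∃ B : Finset (S ⊕ V × Option (Fin k) ⊕ V' × Option (Fin k)), ∀ e, e ∈ B ↔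
      Sum.elim (· ∈ A) (Sum.elim (fun y => y.1 ∉ T) fun y => y.1 ∉ T') e :=
    ⟨univ.filter _, fun _ => mem_filter.trans (and_iff_right (mem_univ _))⟩
  have b1 : ∀ w, Sum.map id .inl w ∈ B → Act T U w := by
    rintro (x | y) hw
    exacts [hA ((hB _).1 hw), (hB _).1 hw]
  have b2 : ∀ w, Sum.map id .inr w ∈ B → Act T' U w := by
    rintro (x | y) hw
    exacts [hA ((hB _).1 hw), (hB _).1 hw]
  obtain ⟨M, m1, m2, m3, m4⟩ := two a p c t B
    (e1.fib e2 h (by rintro (z | z) <;> simp) b1) (e2.fib e1 h' (by rintro (z | z) <;> simp) b2)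
  obtain ⟨K, hK⟩ : ∃ K : Finset S, ∀ x, x ∈ K ↔ .inl x ∈ M := ⟨M.toLeft, fun _ => mem_toLeft⟩
  have k1 : ∀ x ∈ U \ K, x ∈ U ∧ .inl x ∉ M := fun x hx =>
    ⟨(mem_sdiff.1 hx).1, mt (hK x).2 (mem_sdiff.1 hx).2⟩
  have k2 : (K : Set S) = {x | .inl x ∈ M} := Set.ext hK
  obtain ⟨a1, b₁, q₁, a2, a3⟩ := e1.step h hk k1 (fun w hw => b1 w (m1 hw)) m2 m3
    fun y hy => m4 _ ((hB _).2 hy)
  obtain ⟨d1, b₂, q₂, d2, d3⟩ := e2.step h' hk k1 (fun w hw => b2 w (m1 hw)) m3 m2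
    fun y hy hy' => (m4 _ ((hB (.inr (.inr y))).2 hy) hy').imp fun _ h => ⟨h.1, h.2.symm⟩
  refine ⟨K, fun x hx => (hB _).1 (m1 ((hK x).1 hx)), k2 ▸ a1, k2 ▸ d1, b₁, q₁, b₂, q₂, a2, d2,
    fun x => ⟨(a3 x).1, (d3 x).1, fun hx hx' => ?_⟩⟩
  obtain ⟨f, hf, h1⟩ := m4 (.inl x) ((hB _).2 hx) (mt (hK x).2 hx')
  exact h1.imp (fun h => (a3 x).2 ⟨f, hf, h⟩) fun h => (d3 x).2 ⟨f, hf, h⟩

theorem Linked.empty : Linked D T s ∅ := ⟨0, fun x _ => s x, by simp, by simp⟩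

theorem run_two [Fintype S] [Fintype V] [Fintype V'] [DecidableEq S] (hk : 0 < k)
    (L : S → Finset ℕ) (C : Finset ℕ) : ∀ (U : Finset S) (b : S ⊕ V × Option (Fin k) → V)
      (q : S ⊕ V × Option (Fin k) → ℕ) (b' : S ⊕ V' × Option (Fin k) → V')
      (q' : S ⊕ V' × Option (Fin k) → ℕ), Side D T s U b q → Side D' T' s' U b' q' →
      (∀ x ∈ U, q (.inl x) + q' (.inl x) ≤ (L x ∩ C).card + 1) → ∃ c : S → ℕ,
        (∀ x ∈ U, c x ∈ L x ∩ C) ∧
          ∀ i, Linked D T s {x | x ∈ U ∧ c x = i} ∧ Linked D' T' s' {x | x ∈ U ∧ c x = i} := by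
  induction C using Finset.induction_on with
  | empty =>
    intro U b q b' q' h h' hL
    obtain rfl : U = ∅ := eq_empty_of_forall_notMem fun x hx => by
      have h1 := hL x hx
      have h2 := h.pos (.inl x) hx
      have h3 := h'.pos (.inl x) hx
      rw [inter_empty, card_empty] at h1
      omega
    exact ⟨0, by simp, fun i => by simp [Linked.empty]⟩
  | insert i C hi ih =>
    intro U b q b' q' h h' hL
    obtain ⟨K, k1, k2, k3, b₁, q₁, b₂, q₂, k4, k5, k6⟩ :=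
      round_two hk h h' (filter_subset (fun x => i ∈ L x) U)
    obtain ⟨c, c1, c2⟩ := ih _ _ _ _ _ k4 k5 fun x hx => by
      obtain ⟨e1, e2⟩ := mem_sdiff.1 hx
      have h2 := hL x e1
      obtain ⟨h3, h4, h5⟩ := k6 x
      by_cases h6 : i ∈ L x
      · rw [inter_insert_of_mem h6, card_insert_of_notMem (by simp [hi])] at h2
        have := h5 (mem_filter.2 ⟨e1, h6⟩) e2
        omega
      · rw [inter_insert_of_notMem h6] at h2
        omega
    clear ih k4 k5 k6 hL h h'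
    have c0 : ∀ e ∈ U, e ∉ K → c e ≠ i := fun e e1 e2 e3 =>
      hi (e3 ▸ (mem_inter.1 (c1 e (mem_sdiff.2 ⟨e1, e2⟩))).2)
    refine ⟨fun e => if e ∈ K then i else c e, fun e he => ?_, fun j => ?_⟩
    · have := c1 e
      have := @k1 e
      grind
    · by_cases hj : j = i
      · rw [show {x | x ∈ U ∧ (if x ∈ K then i else c x) = j} = (K : Set S) from Set.ext fun x => by
          have := @k1 x
          have := c0 x
          grind]
        exact ⟨k2, k3⟩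
      · rw [show {x | x ∈ U ∧ (if x ∈ K then i else c x) = j} = {x | x ∈ U \ K ∧ c x = j} from
          Set.ext fun x => by grind]
        exact c2 j

/-- The first state of one gammoid, from labels that are proper at both ends. -/
theorem Side.start [Fintype S] {φ : Fin k → V → V} (hφ : ∀ i, ∀ z ∉ T, φ i z = z ∨ D z (φ i z))
    (g : S ⊕ V × Fin k → ℕ) (g1 : ∀ e, 1 ≤ g e ∧ g e ≤ k)
    (g2 : ∀ e f, Sum.elim (fun _ => True) (fun y => y.1 ∉ T) e →
      Sum.elim (fun _ => True) (fun y => y.1 ∉ T) f →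
      Sum.elim s (fun y => φ y.2 y.1) e = Sum.elim s (fun y => φ y.2 y.1) f → g e = g f → e = f)
    (g3 : ∀ z ∉ T, ∀ j ≤ k, j ≤ (univ.filter fun i => g (.inr (z, i)) ≤ j).card) :
    ∃ (b : S ⊕ V × Option (Fin k) → V) (q : S ⊕ V × Option (Fin k) → ℕ),
      Side D T s univ b q ∧ ∀ x, q (.inl x) = g (.inl x) := by
  refine ⟨Sum.elim s fun y => y.2.elim y.1 fun i => φ i y.1,
    Sum.elim (fun x => g (.inl x)) fun y => y.2.elim (k + 1) fun i => g (.inr (y.1, i)),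
    ⟨fun _ => rfl, fun _ => ⟨rfl, rfl⟩, fun z hz i => hφ i z hz, ?_, ?_, ?_, g3⟩, fun _ => rfl⟩
  · rintro (x | ⟨z, _ | i⟩) -
    exacts [(g1 _).1, Nat.le_add_left 1 k, (g1 _).1]
  · rintro (x | ⟨z, _ | i⟩) - h
    exacts [(g1 _).2, (h z rfl).elim, (g1 _).2]
  · rintro (x | ⟨z, _ | i⟩) (y | ⟨w, _ | j⟩) h1 h2 e1 e2
    · cases g2 (.inl x) (.inl y) trivial trivial e1 e2
      rfl
    · exact absurd e2 (Nat.lt_succ_of_le (g1 _).2).ne
    · cases g2 (.inl x) (.inr (w, j)) trivial h2 e1 e2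
    · exact absurd e2 (Nat.lt_succ_of_le (g1 _).2).ne'
    · cases e1
      rfl
    · exact absurd e2 (Nat.lt_succ_of_le (g1 _).2).ne'
    · cases g2 (.inr (z, i)) (.inl y) h1 trivial e1 e2
    · exact absurd e2 (Nat.lt_succ_of_le (g1 _).2).ne
    · cases g2 (.inr (z, i)) (.inr (w, j)) h1 h2 e1 e2
      rfl

theorem cnt_of_inj {g : Fin k → ℕ} (h1 : ∀ i, 1 ≤ g i ∧ g i ≤ k) (h2 : Injective g) :
    ∀ j ≤ k, j ≤ (univ.filter fun i => g i ≤ j).card := fun j hj => by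
  have a1 := card_le_card_of_injOn (s := univ.filter fun i => ¬ g i ≤ j) (t := Ioc j k) g
    (fun i hi => mem_coe.2 (mem_Ioc.2 ⟨not_le.1 (mem_filter.1 hi).2, (h1 i).2⟩)) h2.injOn
  have a2 := card_filter_add_card_filter_not (s := univ) fun i => g i ≤ j
  rw [card_fin] at a2
  rw [Nat.card_Ioc] at a1
  omega

theorem slot_inj {c : S → Fin k} {φ : Fin k → V → V} (h : ∀ i, Mat D T s {x | c x = i} (φ i)) :
    ∀ e f : S ⊕ V × Fin k, Sum.elim (fun _ => True) (fun y => y.1 ∉ T) e →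
      Sum.elim (fun _ => True) (fun y => y.1 ∉ T) f →
      Sum.elim s (fun y => φ y.2 y.1) e = Sum.elim s (fun y => φ y.2 y.1) f →
      Sum.elim c Prod.snd e = Sum.elim c Prod.snd f → e = f := by
  rintro (x | ⟨z, i⟩) (y | ⟨w, j⟩) h1 h2 e1 e2
  · exact congrArg _ ((h (c y)).2.2.2 e2 rfl e1)
  · exact ((h j).2.2.1 w h2 x e2 e1.symm).elim
  · exact ((h i).2.2.1 z h1 y e2.symm e1).elim
  · cases e2
    rw [(h i).2.1 z h1 w h2 e1]

theorem exists_nd {c : S → Fin k} {φ : Fin k → V → V} (h : ∀ i, Mat D T s {x | c x = i} (φ i)) :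
    ∃ l : S ⊕ V × Fin k → (V ⊕ V) × Fin k, Injective l ∧
      ∀ e, Sum.elim (fun _ => True) (fun y => y.1 ∉ T) e →
        (l e).1 = .inl (Sum.elim s (fun y => φ y.2 y.1) e) := by
  classical
  obtain ⟨n, n1, n2⟩ : ∃ n : S ⊕ V × Fin k → V ⊕ V,
      (∀ e, Sum.elim (fun _ => True) (fun y => y.1 ∉ T) e →
        n e = .inl (Sum.elim s (fun y => φ y.2 y.1) e)) ∧
      ∀ e, ¬ Sum.elim (fun _ => True) (fun y => y.1 ∉ T) e → ∃ y, e = .inr y ∧ n e = .inr y.1 := by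
    refine ⟨Sum.elim (fun x => .inl (s x)) fun y => if y.1 ∉ T then .inl (φ y.2 y.1) else .inr y.1,
      ?_, ?_⟩ <;> rintro (x | y) h
    exacts [rfl, if_pos h, (h trivial).elim, ⟨y, rfl, if_neg h⟩]
  refine ⟨fun e => (n e, Sum.elim c Prod.snd e), fun e f a => ?_, n1⟩
  obtain ⟨a1, a2⟩ := Prod.ext_iff.1 a
  by_cases he : Sum.elim (fun _ => True) (fun y => y.1 ∉ T) e <;>
    by_cases hf : Sum.elim (fun _ => True) (fun y => y.1 ∉ T) f
  · exact slot_inj h e f he hf (Sum.inl_injective ((n1 e he).symm.trans (a1.trans (n1 f hf)))) a2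
  · obtain ⟨y, -, a3⟩ := n2 f hf
    cases (n1 e he).symm.trans (a1.trans a3)
  · obtain ⟨y, -, a3⟩ := n2 e he
    cases (n1 f hf).symm.trans (a1.symm.trans a3)
  · obtain ⟨y, rfl, a3⟩ := n2 e he
    obtain ⟨w, rfl, a4⟩ := n2 f hf
    exact congrArg _ (Prod.ext (Sum.inr_injective (a3.symm.trans (a1.trans a4))) a2)

theorem gammoids [Fintype S] [Fintype V] [Fintype V'] [DecidableEq S] (hk : 0 < k)
    {c c' : S → Fin k} (h : ∀ i, Linked D T s {x | c x = i})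
    (h' : ∀ i, Linked D' T' s' {x | c' x = i}) (L : S → Finset ℕ) (hL : ∀ x, k ≤ (L x).card) :
    ∃ c : S → ℕ, (∀ x, c x ∈ L x) ∧
      ∀ i, Linked D T s {x | c x = i} ∧ Linked D' T' s' {x | c x = i} := by
  classical
  choose φ hφ using fun i => (h i).mat
  choose φ' hφ' using fun i => (h' i).mat
  obtain ⟨l, l1, l2⟩ := exists_nd hφ
  obtain ⟨l', l1', l2'⟩ := exists_nd hφ'
  obtain ⟨ψ, h1, h2⟩ := konig (E := S ⊕ V × Fin k ⊕ V' × Fin k) (γ := (V ⊕ V) ⊕ V' ⊕ V')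
    (l := Sum.elim (fun x => (l (.inl x)).map .inl id)
      (Sum.elim (fun y => (l (.inr y)).map .inl id) fun y => (.inr (.inl y.1), y.2)))
    (ρ := Sum.elim (fun x => (l' (.inl x)).map .inr id)
      (Sum.elim (fun y => (.inl (.inl y.1), y.2)) fun y => (l' (.inr y)).map .inr id))
    (by
      have a := (Sum.inl_injective (β := V' ⊕ V').prodMap injective_id).comp l1
      rintro (x | x | x) (y | y | y) e <;> first
        | cases a e <;> rfl
        | simp_all [Prod.ext_iff])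
    (by
      have a := (Sum.inr_injective (α := V ⊕ V).prodMap injective_id).comp l1'
      rintro (x | x | x) (y | y | y) e <;> first
        | cases a e <;> rfl
        | simp_all [Prod.ext_iff])
  obtain ⟨b, q, s1, s2⟩ := Side.start (s := s) (fun i => (hφ i).1)
    (fun e => ψ (e.map id .inl) + 1) (fun e => ⟨Nat.le_add_left _ _, h1 _⟩)
    (fun e f he hf e1 e2 => injective_id.sumMap Sum.inl_injective
      (h2 _ _ (Nat.succ_injective e2) (Or.inl (by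
        have a := (l2 e he).trans ((congrArg _ e1).trans (l2 f hf).symm)
        rcases e with x | x <;> rcases f with y | y <;> exact congrArg Sum.inl a))))
    fun z _ => cnt_of_inj (fun e => ⟨Nat.le_add_left _ _, h1 _⟩) fun i j e => by
      cases h2 _ _ (Nat.succ_injective e) (Or.inr rfl)
      rfl
  have h3 : ∀ e, 1 ≤ k - ψ e ∧ k - ψ e ≤ k := fun e => ⟨Nat.sub_pos_of_lt (h1 e), Nat.sub_le _ _⟩
  have h4 : ∀ e f, k - ψ e = k - ψ f → ψ e = ψ f := fun e f e1 => by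
    have := h1 e
    have := h1 f
    omega
  obtain ⟨b', q', s3, s4⟩ := Side.start (s := s') (fun i => (hφ' i).1)
    (fun e => k - ψ (e.map id .inr)) (fun e => h3 _)
    (fun e f he hf e1 e2 => injective_id.sumMap Sum.inr_injective
      (h2 _ _ (h4 _ _ e2) (Or.inr (by
        have a := (l2' e he).trans ((congrArg _ e1).trans (l2' f hf).symm)
        rcases e with x | x <;> rcases f with y | y <;> exact congrArg Sum.inr a))))
    fun z _ => cnt_of_inj (fun e => h3 _) fun i j e => by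
      cases h2 _ _ (h4 _ _ e) (Or.inl rfl)
      rfl
  obtain ⟨d, d1, d2⟩ := run_two hk L (univ.biUnion L) univ b q b' q' s1 s3 fun x _ => by
    have a1 := h1 (.inl x)
    have a2 := hL x
    rw [s2, s4, inter_eq_left.2 (subset_biUnion_of_mem L (mem_univ x))]
    simp only [Sum.map_inl, id]
    omega
  exact ⟨d, fun x => (mem_inter.1 (d1 x (mem_univ x))).1, fun i => by simpa using d2 i⟩

end Pool.Agent.Lib.MP_ba7882_co
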