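import Pool.Agent.Lib.MP_ba7882_co.Str

/-! The first pair of labels. -/

set_option autoImplicit false

namespace Pool.Agent.Lib.MP_ba7882_co

open Finset

variable {E α β : Type} [DecidableEq E] [DecidableEq α] [DecidableEq β]

theorem exists_closed (a : E → α) (b : E → β) {R : Finset E} (hR : R.Nonempty)
    (h : (R.image b).card ≤ (R.image a).card) : ∃ K ⊆ R, K.Nonempty ∧ Set.InjOn a K ∧
      Set.InjOn b K ∧ ∀ u ∈ R, (∃ v ∈ K, a v = a u) → ∃ v ∈ K, b v = b u := by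
  obtain ⟨N, hN⟩ : ∃ N : Finset α → Finset β,
      ∀ X, N X = (R.filter fun e => a e ∈ X).image b := ⟨_, fun _ => rfl⟩
  obtain ⟨X, hX, hm⟩ := exists_min_image
    ((R.image a).powerset.filter fun X => X.Nonempty ∧ (N X).card ≤ X.card) card
    ⟨R.image a, mem_filter.2 ⟨mem_powerset_self _, hR.image a, by
      rw [hN]
      exact (card_le_card (image_subset_image (filter_subset _ _))).trans h⟩⟩
  obtain ⟨x1, x2, x3⟩ := mem_filter.1 hX
  rw [mem_powerset] at x1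
  have h1 : ∀ Y, Y ⊂ X → Y.Nonempty → Y.card < (N Y).card := fun Y hY hY' => not_le.1 fun h =>
    (card_lt_card hY).not_ge (hm Y (mem_filter.2 ⟨mem_powerset.2 (hY.1.trans x1), hY', h⟩))
  have h2 : ∀ Y ⊆ X, Y.card ≤ (N Y).card := fun Y hY => by
    rcases Y.eq_empty_or_nonempty with rfl | ⟨y, hy⟩
    · simp
    have h3 : (N (Y.erase y)).card ≤ (N Y).card := by
      rw [hN, hN]
      exact card_le_card (image_subset_image (monotone_filter_right _ fun _ _ => mem_of_mem_erase))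
    have h4 := card_erase_add_one hy
    rcases (Y.erase y).eq_empty_or_nonempty with e | e
    · obtain ⟨u, hu, e'⟩ := mem_image.1 (x1 (hY hy))
      have : 0 < (N Y).card := card_pos.2 ⟨b u, by
        rw [hN]
        exact mem_image_of_mem _ (mem_filter.2 ⟨hu, e' ▸ hy⟩)⟩
      rw [e, card_empty] at h4
      omega
    · have := h1 _ ((erase_ssubset hy).trans_le hY) e
      omega
  obtain ⟨f, f1, f2⟩ := (all_card_le_biUnion_card_iff_exists_injective
    fun x : X => (R.filter fun e => a e = x).image b).1 fun s => by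
      refine (card_map (Function.Embedding.subtype _)).ge.trans ((h2 _ fun x hx => ?_).trans
        (card_le_card fun y hy => ?_))
      · obtain ⟨x, -, rfl⟩ := mem_map.1 hx
        exact x.2
      · rw [hN] at hy
        obtain ⟨u, hu, rfl⟩ := mem_image.1 hy
        obtain ⟨x, hx, e⟩ := mem_map.1 (mem_filter.1 hu).2
        exact mem_biUnion.2 ⟨x, hx, mem_image_of_mem _ (mem_filter.2 ⟨(mem_filter.1 hu).1, e.symm⟩)⟩
  choose m m1 m2 using fun x => mem_image.1 (f2 x)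
  have m3 := fun x => (mem_filter.1 (m1 x)).2
  have h3 : univ.image f = N X := eq_of_subset_of_card_le (fun y hy => by
    obtain ⟨x, -, rfl⟩ := mem_image.1 hy
    rw [hN, ← m2]
    exact mem_image_of_mem _ (mem_filter.2 ⟨(mem_filter.1 (m1 x)).1, m3 x ▸ x.2⟩))
    (by rwa [card_image_of_injective _ f1, card_univ, Fintype.card_coe])
  refine ⟨univ.image m, fun e he => ?_, ⟨m ⟨_, x2.choose_spec⟩, mem_image_of_mem _ (mem_univ _)⟩,
    fun e he e' he' h => ?_, fun e he e' he' h => ?_, fun u hu ⟨v, hv, h⟩ => ?_⟩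
  · obtain ⟨x, -, rfl⟩ := mem_image.1 he
    exact (mem_filter.1 (m1 x)).1
  · obtain ⟨x, -, rfl⟩ := mem_image.1 he
    obtain ⟨y, -, rfl⟩ := mem_image.1 he'
    rw [m3, m3] at h
    rw [Subtype.ext h]
  · obtain ⟨x, -, rfl⟩ := mem_image.1 he
    obtain ⟨y, -, rfl⟩ := mem_image.1 he'
    rw [m2, m2] at h
    rw [f1 h]
  · obtain ⟨x, -, rfl⟩ := mem_image.1 hv
    have h4 : b u ∈ N X := by
      rw [hN]
      exact mem_image_of_mem _ (mem_filter.2 ⟨hu, h ▸ m3 x ▸ x.2⟩)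
    obtain ⟨y, -, e⟩ := mem_image.1 (h3 ▸ h4)
    exact ⟨m y, mem_image_of_mem _ (mem_univ _), (m2 y).trans e⟩

theorem init [Fintype E] (b : E → β) (R : Finset E) : ∀ G : Finset E → ℕ, Good G →
    (∀ X, G X ≤ (X ∩ R).card) → ∃ (π q : E → ℕ) (lt : E → E → Prop), Str G R π lt ∧
      (∀ e ∈ R, ∀ f ∈ R, b e = b f → q e = q f → e = f) ∧ ∀ u ∈ R, 1 ≤ q u ∧ π u ≤ dd G u ∧
        q u ≤ (R.filter fun e => b e = b u).card ∧
        π u + q u ≤ max (dd G u) (R.filter fun e => b e = b u).card + 1 := by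
  induction R using Finset.strongInduction with
  | H R ih =>
  intro G hG hc
  classical
  rcases R.eq_empty_or_nonempty with rfl | hR
  · exact ⟨0, 0, _, .nil G 0 fun X => by simpa using hc X, by simp, by simp⟩
  obtain ⟨a, ha⟩ : ∃ a : E → Finset E, ∀ u w, a u = a w ↔ u = w ∨ Rel G u w := by
    refine ⟨fun u => univ.filter fun w => u = w ∨ Rel G u w, fun u w => ⟨fun h => ?_, ?_⟩⟩
    · exact (mem_filter.1 (h.ge (mem_filter.2 ⟨mem_univ w, Or.inl rfl⟩))).2
    · rintro (rfl | h)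
      · rfl
      · refine filter_congr fun x _ => ⟨?_, ?_⟩ <;> rintro (rfl | h')
        exacts [Or.inr h.symm, Or.inr (h.symm.trans hG h'), Or.inr h, Or.inr (h.trans hG h')]
  obtain ⟨K, c, k1, k2, k3, k4, k5, k6⟩ : ∃ (K : Finset E) (c : Prop), K ⊆ R ∧ K.Nonempty ∧
      Set.InjOn a K ∧ Set.InjOn b K ∧
      (c → ∀ u ∈ R, (∃ v ∈ K, a v = a u) → ∃ v ∈ K, b v = b u) ∧
      (¬ c → ∀ u ∈ R, (∃ v ∈ K, b v = b u) → ∃ v ∈ K, a v = a u) := by
    rcases le_total (R.image b).card (R.image a).card with h | h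
    · obtain ⟨K, k1, k2, k3, k4, k5⟩ := exists_closed a b hR h
      exact ⟨K, True, k1, k2, k3, k4, fun _ => k5, fun h => (h trivial).elim⟩
    · obtain ⟨K, k1, k2, k3, k4, k5⟩ := exists_closed b a hR h
      exact ⟨K, False, k1, k2, k4, k3, False.elim, fun _ => k5⟩
  have k7 : ∀ v ∈ K, ∀ w ∈ K, Rel G v w → v = w := fun v hv w hw h =>
    k3 hv hw ((ha v w).2 (Or.inr h))
  obtain ⟨π, q, lt, s1, s2, s3⟩ := ih (R \ K) (sdiff_ssubset k1 k2) _ (hG.red K)
    (red_le_card hG.mono hc k7)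
  obtain ⟨n, hn⟩ : ∃ n : E → ℕ, ∀ u, n u = (R.filter fun e => b e = b u).card := ⟨_, fun _ => rfl⟩
  obtain ⟨n', hn'⟩ : ∃ n : E → ℕ, ∀ u, n u = ((R \ K).filter fun e => b e = b u).card :=
    ⟨_, fun _ => rfl⟩
  simp only [← hn, ← hn'] at s3 ⊢
  have n0 : ∀ u w, b u = b w → n u = n w := fun u w h => by rw [hn, hn, h]
  have n1 : ∀ u, n' u ≤ n u := fun u => by
    rw [hn, hn']
    exact card_le_card (filter_subset_filter _ sdiff_subset)
  have n2 : ∀ u, (∃ v ∈ K, b v = b u) → n' u < n u := fun u ⟨v, hv, h⟩ => by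
    rw [hn, hn']
    exact card_lt_card ⟨filter_subset_filter _ sdiff_subset, fun h' =>
      (mem_sdiff.1 (mem_filter.1 (h' (mem_filter.2 ⟨k1 hv, h⟩))).1).2 hv⟩
  have n3 : ∀ u ∈ R, 1 ≤ n u := fun u hu => by
    rw [hn]
    exact card_pos.2 ⟨u, mem_filter.2 ⟨hu, rfl⟩⟩
  have d0 : ∀ u, 1 ≤ dd G u := fun u => one_le_dd
  have d1 : ∀ u, dd (red G K) u ≤ dd G u := fun u => dd_red_le hG
  have d2 : ∀ u, (∃ v ∈ K, Rel G v u) → dd (red G K) u < dd G u := fun u ⟨v, hv, h⟩ =>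
    dd_red_lt hG hv h.symm
  have d3 : ∀ u, u ∉ K → ((∃ v ∈ K, a v = a u) ↔ ∃ v ∈ K, Rel G v u) := fun u hu =>
    exists_congr fun v => and_congr_right fun hv => by
      rw [ha]
      exact or_iff_right fun e => hu (e ▸ hv)
  obtain ⟨σ, σ1, σ2⟩ : ∃ σ : E → ℕ, (∀ u ∈ K, σ u = if c then 1 else dd G u) ∧
      ∀ u, u ∉ K → σ u = π u + if c ∧ ∃ v ∈ K, Rel G v u then 1 else 0 :=
    ⟨fun u => if u ∈ K then _ else _, fun u h => if_pos h, fun u h => if_neg h⟩
  obtain ⟨τ, τ1, τ2⟩ : ∃ τ : E → ℕ, (∀ u ∈ K, τ u = if c then n u else 1) ∧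
      ∀ u, u ∉ K → τ u = q u + if ¬ c ∧ ∃ v ∈ K, b v = b u then 1 else 0 :=
    ⟨fun u => if u ∈ K then _ else _, fun u h => if_pos h, fun u h => if_neg h⟩
  obtain ⟨lt', s4⟩ := Str.insert_many c K hG s1 disjoint_sdiff k7 σ
    (fun v hv => by
      have := σ1 v hv
      have := d0 v
      grind)
    fun u hu => by
      have := σ2 u (mem_sdiff.1 hu).2
      grind
  rw [union_sdiff_of_subset k1] at s4
  have t1 : ∀ e ∈ K, ∀ f ∈ R, f ∉ K → b e = b f → τ e ≠ τ f := fun e he f hf hf' h => by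
    have a1 := τ1 e he
    have a2 := τ2 f hf'
    have a3 := s3 f (mem_sdiff.2 ⟨hf, hf'⟩)
    have a4 := n2 f ⟨e, he, h⟩
    have a5 := n0 e f h
    have a6 : ∃ v ∈ K, b v = b f := ⟨e, he, h⟩
    by_cases hc : c <;> simp only [hc, a6, if_true, if_false, not_true, not_false_iff, and_true,
      and_self] at a1 a2 <;> omega
  refine ⟨σ, τ, lt', s4, fun e he f hf h h' => ?_, fun u hu => ?_⟩
  · by_cases e1 : e ∈ K <;> by_cases e2 : f ∈ K
    · exact k4 e1 e2 h
    · exact absurd h' (t1 e e1 f hf e2 h)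
    · exact absurd h'.symm (t1 f e2 e he e1 h.symm)
    · rw [τ2 e e1, τ2 f e2, h] at h'
      exact s2 e (mem_sdiff.2 ⟨he, e1⟩) f (mem_sdiff.2 ⟨hf, e2⟩) h (Nat.add_right_cancel h')
  · have a0 := d0 u
    have a1 := n3 u hu
    by_cases e1 : u ∈ K
    · have a2 := σ1 u e1
      have a3 := τ1 u e1
      split_ifs at a2 a3 <;> omega
    · have a2 := σ2 u e1
      have a3 := τ2 u e1
      have a4 := s3 u (mem_sdiff.2 ⟨hu, e1⟩)
      have a5 := d1 u
      have a6 := n1 u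
      split_ifs at a2 a3 with b1 b2 b2
      · exact absurd b1.1 b2.1
      · have := d2 u b1.2
        have := n2 u (k5 b1.1 u hu ((d3 u e1).2 b1.2))
        omega
      · have := n2 u b2.2
        have := d2 u ((d3 u e1).1 (k6 b2.1 u hu b2.2))
        omega
      · omega

end Pool.Agent.Lib.MP_ba7882_co
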