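import Mathlib

/-! Stable matchings in bipartite multigraphs and the equitable colouring process. -/

set_option autoImplicit false

namespace Pool.Agent.Lib.MP_ba7882_co

open Finset

variable {E α β : Type} [DecidableEq E] [DecidableEq α] [DecidableEq β]
  (a : E → α) (b : E → β) (p q : E → ℕ)

/-- The edge `f` is preferred to the edge `e` at a common end. -/
abbrev Dom (f e : E) : Prop := (a f = a e ∧ p f < p e) ∨ (b f = b e ∧ q f < q e)

/-- `M` is a stable matching of the edge set `A`. -/
def Ker (A M : Finset E) : Prop :=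
  M ⊆ A ∧ Set.InjOn a M ∧ Set.InjOn b M ∧ ∀ e ∈ A, e ∉ M → ∃ f ∈ M, Dom a b p q f e

variable {a b p q}

theorem exists_ker (hp : ∀ e f, a e = a f → p e = p f → e = f)
    (hq : ∀ e f, b e = b f → q e = q f → e = f) (A : Finset E) : ∃ M, Ker a b p q A M := by
  induction A using Finset.strongInduction with
  | H A ih =>
  obtain ⟨B, hB⟩ : ∃ B, B = A.filter fun e => ∀ f ∈ A, a f = a e → p e ≤ p f := ⟨_, rfl⟩
  have hB' : ∀ e, e ∈ B ↔ e ∈ A ∧ ∀ f ∈ A, a f = a e → p e ≤ p f := by simp [hB]
  by_cases h : Set.InjOn b B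
  · refine ⟨B, fun e he => ((hB' e).1 he).1, fun e he f hf h' => ?_, h, fun e he hn => ?_⟩
    · exact hp e f h' (le_antisymm (((hB' e).1 he).2 f ((hB' f).1 hf).1 h'.symm)
        (((hB' f).1 hf).2 e ((hB' e).1 he).1 h'))
    · obtain ⟨f, hf, hm⟩ := exists_min_image (A.filter fun f => a f = a e) p
        ⟨e, mem_filter.2 ⟨he, rfl⟩⟩
      obtain ⟨hf1, hf2⟩ := mem_filter.1 hf
      have hfB : f ∈ B := (hB' f).2 ⟨hf1, fun g hg e' => hm g (mem_filter.2 ⟨hg, e'.trans hf2⟩)⟩
      refine ⟨f, hfB, Or.inl ⟨hf2, lt_of_le_of_ne (hm e (mem_filter.2 ⟨he, rfl⟩)) fun e' => ?_⟩⟩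
      exact hn (hp f e hf2 e' ▸ hfB)
  · obtain ⟨e, he, f, hf, h1, h2⟩ : ∃ e ∈ B, ∃ f ∈ B, b e = b f ∧ q e < q f := by
      by_contra hc
      push Not at hc
      exact h fun e he f hf h' => hq e f h' (le_antisymm (hc f hf e he h'.symm) (hc e he f hf h'))
    obtain ⟨M, m1, m2, m3, m4⟩ := ih (A.erase f) (erase_ssubset ((hB' f).1 hf).1)
    refine ⟨M, m1.trans (erase_subset _ _), m2, m3, fun g hg hn => ?_⟩
    by_cases e1 : g = f
    · subst e1
      by_cases e2 : e ∈ M
      · exact ⟨e, e2, Or.inr ⟨h1, h2⟩⟩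
      · obtain ⟨u, hu, h3 | h3⟩ := m4 e (mem_erase.2 ⟨by rintro rfl; omega, ((hB' e).1 he).1⟩) e2
        · exact absurd (((hB' e).1 he).2 u (mem_of_mem_erase (m1 hu)) h3.1) (by omega)
        · exact ⟨u, hu, Or.inr ⟨h3.1.trans h1, h3.2.trans h2⟩⟩
    · exact m4 g (mem_erase.2 ⟨e1, hg⟩) hn

omit [DecidableEq α] [DecidableEq β] in
/-- Adding edges at new left vertices does not make a stable matching smaller. -/
theorem Ker.card_le {A A' M M' : Finset E} (h : Ker a b p q A M) (h' : Ker a b p q A' M')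
    (hA : A ⊆ A') (hn : ∀ e ∈ A, ∀ f ∈ A', a f = a e → f ∈ A) : M.card ≤ M'.card := by
  obtain ⟨m1, m2, m3, m4⟩ := h
  have h1 : ∀ e ∈ M, ∃ f ∈ M', f = e ∨ Dom a b p q f e := fun e he => by
    by_cases e1 : e ∈ M'
    · exact ⟨e, e1, Or.inl rfl⟩
    · exact (h'.2.2.2 e (hA (m1 he)) e1).imp fun f hf => ⟨hf.1, Or.inr hf.2⟩
  choose! g g1 g2 using h1
  have h2 : ∀ e ∈ M, ∀ f ∈ M, ¬ Dom a b p q f e := by
    rintro e he f hf (h | h)
    · exact h.2.ne (congrArg p (m2 hf he h.1))
    · exact h.2.ne (congrArg q (m3 hf he h.1))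
  have h3 : ∀ e ∈ M, ∀ e' ∈ M, ∀ f ∈ M', a f = a e → p f < p e → b f = b e' → q f < q e' →
      False := by
    intro e he e' he' f hf e1 e2 e3 e4
    obtain ⟨u, hu, h | h⟩ := m4 f (hn e (m1 he) f (h'.1 hf) e1)
      fun h => h2 e he f h (Or.inl ⟨e1, e2⟩)
    · have := congrArg p (m2 hu he (h.1.trans e1))
      omega
    · have := congrArg q (m3 hu he' (h.1.trans e3))
      omega
  refine card_le_card_of_injOn g g1 fun e he e' he' e0 => ?_
  have h4 := g2 e he
  have h5 := g2 e' he'
  have h6 := g1 e he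
  rw [← e0] at h5
  generalize g e = f at h4 h5 h6
  rcases h4 with rfl | h4
  · exact h5.resolve_right (h2 e' he' f he)
  rcases h5 with rfl | h5
  · exact absurd h4 (h2 e he f he')
  rcases h4 with h4 | h4 <;> rcases h5 with h5 | h5
  · exact m2 he he' (h4.1.symm.trans h5.1)
  · exact (h3 e he e' he' f h6 h4.1 h4.2 h5.1 h5.2).elim
  · exact (h3 e' he' e he f h6 h5.1 h5.2 h4.1 h4.2).elim
  · exact m3 he he' (h4.1.symm.trans h5.1)

/-- A left vertex all of whose edges have small out-degree is covered. -/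
theorem Ker.cover (hp : ∀ e f, a e = a f → p e = p f → e = f) {S A M : Finset E}
    (h : Ker a b p q A M) (hA : A ⊆ S) {z : α} (h1 : ∀ e ∈ S, a e = z → e ∈ A)
    (h2 : 0 < (S.filter fun f => a f = z).card)
    (h3 : ∀ e ∈ S, a e = z →
      (S.filter fun f => Dom a b p q f e).card < (S.filter fun f => a f = z).card) :
    ∃ e ∈ M, a e = z := by
  by_contra hc
  push Not at hc
  obtain ⟨e, he, hm⟩ := exists_max_image _ p (card_pos.1 h2)
  obtain ⟨e1, e2⟩ := mem_filter.1 he
  obtain ⟨u, hu, h4⟩ := h.2.2.2 e (h1 e e1 e2) fun h => hc e h e2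
  refine (h3 e e1 e2).not_ge (card_le_card_of_injOn (fun f => if f = e then u else f)
    (fun f hf => ?_) fun f hf g hg e3 => ?_)
  · obtain ⟨f1, f2⟩ := mem_filter.1 hf
    refine mem_coe.2 (mem_filter.2 ?_)
    beta_reduce
    split_ifs with e3
    · exact ⟨hA (h.1 hu), h4⟩
    · exact ⟨f1, Or.inl ⟨f2.trans e2.symm, lt_of_le_of_ne (hm f hf)
        fun e4 => e3 (hp f e (f2.trans e2.symm) e4)⟩⟩
  · beta_reduce at e3
    split_ifs at e3 with e4 e5 e5
    · rw [e4, e5]
    · exact absurd (mem_filter.1 hg).2 (hc g (e3 ▸ hu))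
    · exact absurd (mem_filter.1 hf).2 (hc f (e3 ▸ hu))
    · exact e3

/-- One round of the process. -/
theorem round [Fintype β] (hp : ∀ e f, a e = a f → p e = p f → e = f)
    (hq : ∀ e f, b e = b f → q e = q f → e = f) {Z : Finset α} {r t : ℕ}
    (hZ : Fintype.card β ≤ r + Z.card) {S A : Finset E} (hA : A ⊆ S.filter fun e => a e ∉ Z)
    (h2 : (S.filter fun e => a e ∉ Z).card ≤ t * r)
    (h3 : ∀ z ∈ Z, t ≤ (S.filter fun f => a f = z).card ∧ ∀ e ∈ S, a e = z →
      (S.filter fun f => Dom a b p q f e).card < (S.filter fun f => a f = z).card) :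
    ∃ W ⊆ Z, ∃ M, Ker a b p q (A ∪ S.filter fun e => a e ∈ W) M ∧
      (M.filter fun e => a e ∉ Z).card ≤ r ∧
      (W = ∅ ∨ (M.filter fun e => a e ∉ Z).card = r) := by
  by_contra hc
  choose K hK using exists_ker hp hq
  have hs : ∀ W : Finset α, (A ∪ S.filter fun e => a e ∈ W) ⊆ S := fun W =>
    union_subset (hA.trans (filter_subset _ _)) (filter_subset _ _)
  have h0 : r < (K (A ∪ S.filter fun e => a e ∈ (∅ : Finset α))).card :=
    (not_le.1 fun h => hc ⟨∅, empty_subset _, _, hK _, h, Or.inl rfl⟩).trans_le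
      (card_filter_le _ _)
  have ht : 0 < t := by
    refine Nat.pos_of_ne_zero fun e => ?_
    have := card_le_card ((hK (A ∪ S.filter fun e => a e ∈ (∅ : Finset α))).1.trans
      (union_subset hA fun e he => absurd (mem_filter.1 he).2 (notMem_empty _)))
    rw [e] at h2
    omega
  have key : ∀ W : Finset α, W ⊆ Z → r + W.card < (K (A ∪ S.filter fun e => a e ∈ W)).card := by
    intro W
    induction W using Finset.induction_on with
    | empty => exact fun _ => h0
    | insert z W hz ih =>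
      intro hW
      have h4 := ih ((subset_insert _ _).trans hW)
      have h5 := (hK (A ∪ S.filter fun e => a e ∈ W)).card_le
        (hK (A ∪ S.filter fun e => a e ∈ insert z W))
        (union_subset_union_right (monotone_filter_right _ fun _ _ => mem_insert_of_mem))
        fun e he f hf e1 => by
          rcases mem_union.1 hf with h | h
          · exact mem_union_left _ h
          rcases mem_union.1 he with h' | h'
          · exact absurd (hW (mem_filter.1 h).2) (e1 ▸ (mem_filter.1 (hA h')).2)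
          · exact mem_union_right _ (mem_filter.2 ⟨(mem_filter.1 h).1, e1 ▸ (mem_filter.1 h').2⟩)
      have h6 := hK (A ∪ S.filter fun e => a e ∈ insert z W)
      generalize K (A ∪ S.filter fun e => a e ∈ insert z W) = M at h5 h6
      have h7 : (insert z W).card ≤ (M.filter fun e => a e ∈ Z).card :=
        card_le_card_of_surjOn a fun y hy => by
          obtain ⟨e, he, e1⟩ := h6.cover hp (hs _)
            (fun e e1 e2 => mem_union_right _ (mem_filter.2 ⟨e1, e2 ▸ hy⟩))
            (ht.trans_le (h3 y (hW hy)).1) (h3 y (hW hy)).2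
          exact ⟨e, mem_coe.2 (mem_filter.2 ⟨he, e1 ▸ hW hy⟩), e1⟩
      have h8 : (M.filter fun e => a e ∈ Z).card ≤ (insert z W).card :=
        card_le_card_of_injOn a (fun e he => by
          rcases mem_union.1 (h6.1 (mem_filter.1 he).1) with h | h
          · exact absurd (mem_filter.1 he).2 (mem_filter.1 (hA h)).2
          · exact (mem_filter.1 h).2) (h6.2.1.mono (coe_subset.2 (filter_subset _ _)))
      have h9 := card_filter_add_card_filter_not (s := M) fun e => a e ∈ Z
      have h10 := card_insert_of_notMem hz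
      by_contra h
      exact hc ⟨_, hW, M, h6, by omega, Or.inr (by omega)⟩
  have h4 := key Z Subset.rfl
  have h5 := card_le_card_of_injOn (t := univ) b (fun _ _ => mem_coe.2 (mem_univ _))
    (hK (A ∪ S.filter fun e => a e ∈ Z)).2.2.1
  rw [card_univ] at h5
  omega

/-- The colouring process. -/
theorem process [Fintype β] (hp : ∀ e f, a e = a f → p e = p f → e = f)
    (hq : ∀ e f, b e = b f → q e = q f → e = f) {Z : Finset α} {r : ℕ}
    (hZ : Fintype.card β ≤ r + Z.card) (L : E → Finset ℕ) (C : Finset ℕ) :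
    ∀ (S : Finset E) (t : ℕ),
      (∀ e ∈ S, a e ∉ Z → (S.filter fun f => Dom a b p q f e).card < (L e ∩ C).card) →
      (S.filter fun e => a e ∉ Z).card ≤ t * r →
      (∀ z ∈ Z, t ≤ (S.filter fun f => a f = z).card ∧ ∀ e ∈ S, a e = z →
        (S.filter fun f => Dom a b p q f e).card < (S.filter fun f => a f = z).card) →
      ∃ c : E → ℕ, (∀ e ∈ S, a e ∉ Z → c e ∈ L e ∩ C) ∧
        (∀ e ∈ S, a e ∉ Z → ∀ f ∈ S, a f ∉ Z → c e = c f → a e = a f ∨ b e = b f → e = f) ∧
        ∀ i, (S.filter fun e => a e ∉ Z ∧ c e = i).card ≤ r := by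
  induction C using Finset.induction_on with
  | empty =>
    intro S t h1 _ _
    have h : ∀ e ∈ S, a e ∉ Z → False := fun e he h => by simpa using h1 e he h
    refine ⟨fun _ => 0, fun e he h' => (h e he h').elim, fun e he h' => (h e he h').elim,
      fun i => ?_⟩
    rw [filter_false_of_mem fun e he h' => h e he h'.1]
    exact Nat.zero_le _
  | insert i C hi ih =>
    intro S t h1 h2 h3
    obtain ⟨W, hW, M, hM, m1, m2⟩ := round hp hq hZ
      (A := S.filter fun e => a e ∉ Z ∧ i ∈ L e) (monotone_filter_right _ fun _ _ h => h.1) h2 h3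
    have hMS : M ⊆ S := hM.1.trans (union_subset (filter_subset _ _) (filter_subset _ _))
    have d0 : ∀ P : E → Prop, ∀ [DecidablePred P],
        ((S \ M).filter P).card + (M.filter P).card = (S.filter P).card := fun P _ => by
      rw [← card_union_of_disjoint (disjoint_filter_filter sdiff_disjoint), ← filter_union,
        sdiff_union_of_subset hMS]
    have d1 : ∀ e ∈ S \ M, (a e ∉ Z ∧ i ∈ L e) ∨ a e ∈ W →
        0 < (M.filter fun f => Dom a b p q f e).card := fun e he h => by
      obtain ⟨f, hf, h'⟩ := hM.2.2.2 e (mem_union.2 (h.imp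
        (fun h => mem_filter.2 ⟨(mem_sdiff.1 he).1, h⟩)
        fun h => mem_filter.2 ⟨(mem_sdiff.1 he).1, h⟩)) (mem_sdiff.1 he).2
      exact card_pos.2 ⟨f, mem_filter.2 ⟨hf, h'⟩⟩
    have d2 : ∀ z, (M.filter fun f => a f = z).card ≤ 1 := fun z =>
      card_le_one.2 fun e he f hf => hM.2.1 (mem_filter.1 he).1 (mem_filter.1 hf).1
        ((mem_filter.1 he).2.trans (mem_filter.1 hf).2.symm)
    have d3 : ∀ z ∈ Z, z ∉ W → (M.filter fun f => a f = z).card = 0 := fun z hz hz' => by
      rw [card_eq_zero, filter_eq_empty_iff]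
      rintro f hf rfl
      rcases mem_union.1 (hM.1 hf) with h | h
      · exact (mem_filter.1 h).2.1 hz
      · exact hz' (mem_filter.1 h).2
    obtain ⟨t', t1, t2⟩ : ∃ t', ((S \ M).filter fun e => a e ∉ Z).card ≤ t' * r ∧
        ∀ z ∈ Z, t' ≤ ((S \ M).filter fun f => a f = z).card := by
      have e1 := d0 fun e => a e ∉ Z
      rcases m2 with rfl | m2
      · refine ⟨t, by omega, fun z hz => ?_⟩
        have := d0 fun f => a f = z
        have := d3 z hz (notMem_empty _)
        have := (h3 z hz).1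
        omega
      · refine ⟨t - 1, by rw [Nat.sub_mul]; omega, fun z hz => ?_⟩
        have := d0 fun f => a f = z
        have := d2 z
        have := (h3 z hz).1
        omega
    refine (ih (S \ M) t' (fun e he h => ?_) t1 fun z hz => ⟨t2 z hz, ?_⟩).elim ?_
    rotate_left 2
    · rintro c ⟨c1, c2, c3⟩
      have c4 : ∀ e ∈ S, a e ∉ Z → e ∉ M → c e ≠ i := fun e he h h' e1 =>
        hi (e1 ▸ (mem_inter.1 (c1 e (mem_sdiff.2 ⟨he, h'⟩) h)).2)
      refine ⟨fun e => if e ∈ M then i else c e, fun e he h => ?_,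
        fun e he h f hf h' e1 e2 => ?_, fun j => ?_⟩
      · beta_reduce
        split_ifs with e1
        · rcases mem_union.1 (hM.1 e1) with h' | h'
          · exact mem_inter.2 ⟨(mem_filter.1 h').2.2, mem_insert_self _ _⟩
          · exact absurd (hW (mem_filter.1 h').2) h
        · exact inter_subset_inter_left (subset_insert _ _) (c1 e (mem_sdiff.2 ⟨he, e1⟩) h)
      · beta_reduce at e1
        split_ifs at e1 with e3 e4 e4
        · exact e2.elim (hM.2.1 e3 e4) (hM.2.2.1 e3 e4)
        · exact absurd e1.symm (c4 f hf h' e4)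
        · exact absurd e1 (c4 e he h e3)
        · exact c2 e (mem_sdiff.2 ⟨he, e3⟩) h f (mem_sdiff.2 ⟨hf, e4⟩) h' e1 e2
      · by_cases e1 : j = i
        · refine (card_le_card fun e he => ?_).trans m1
          obtain ⟨e2, e3, e4⟩ := mem_filter.1 he
          refine mem_filter.2 ⟨by_contra fun h => ?_, e3⟩
          exact c4 e e2 e3 h (by simpa [h, e1] using e4)
        · refine (card_le_card fun e he => ?_).trans (c3 j)
          obtain ⟨e2, e3, e4⟩ := mem_filter.1 he
          have h : e ∉ M := fun h => e1 (by simpa [h, eq_comm] using e4)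
          exact mem_filter.2 ⟨mem_sdiff.2 ⟨e2, h⟩, e3, by simpa [h] using e4⟩
    · have e1 := d0 fun f => Dom a b p q f e
      have e2 := h1 e (mem_sdiff.1 he).1 h
      by_cases e3 : i ∈ L e
      · have := d1 e he (Or.inl ⟨h, e3⟩)
        rw [inter_insert_of_mem e3] at e2
        have := card_insert_le i (L e ∩ C)
        omega
      · rw [inter_insert_of_notMem e3] at e2
        omega
    · intro e he e0
      have e1 := d0 fun f => Dom a b p q f e
      have e2 := (h3 z hz).2 e (mem_sdiff.1 he).1 e0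
      have e3 := d0 fun f => a f = z
      by_cases e4 : z ∈ W
      · have := d1 e he (Or.inr (e0 ▸ e4))
        have := d2 z
        omega
      · have := d3 z hz e4
        omega

end Pool.Agent.Lib.MP_ba7882_co
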