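import Mathlib

/-! Linkages in digraphs as matchings, and the labelled state of one gammoid. -/

set_option autoImplicit false

namespace Pool.Agent.Lib.MP_ba7882_co

open Finset Function

variable {S V : Type}

/-- The elements `x` of `I`, sitting at the vertices `s x`, are joined to `T` by pairwise
vertex-disjoint directed paths `P x 0, …, P x (n x)` of the digraph `D`. -/
def Linked (D : V → V → Prop) (T : Set V) (s : S → V) (I : Set S) : Prop :=
  ∃ (n : S → ℕ) (P : S → ℕ → V),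
    (∀ x ∈ I, P x 0 = s x ∧ P x (n x) ∈ T ∧ ∀ i < n x, D (P x i) (P x (i + 1))) ∧
      ∀ x ∈ I, ∀ y ∈ I, ∀ i ≤ n x, ∀ j ≤ n y, P x i = P y j → x = y ∧ i = j

/-- The successor map of a linkage. -/
def Mat (D : V → V → Prop) (T : Set V) (s : S → V) (I : Set S) (φ : V → V) : Prop :=
  (∀ v ∉ T, φ v = v ∨ D v (φ v)) ∧ (∀ v ∉ T, ∀ w ∉ T, φ v = φ w → v = w) ∧
    (∀ v ∉ T, ∀ x ∈ I, φ v ≠ s x) ∧ Set.InjOn s I

variable {D : V → V → Prop} {T : Set V} {s : S → V} {I : Set S}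

theorem Linked.mat (h : Linked D T s I) : ∃ φ, Mat D T s I φ := by
  obtain ⟨n, P, h1, h2⟩ := h
  have h3 : ∀ v, ∃ w, v ∉ T → (∃ x ∈ I, ∃ i < n x, P x i = v ∧ w = P x (i + 1)) ∨
      (∀ x ∈ I, ∀ i ≤ n x, P x i ≠ v) ∧ w = v := fun v => by
    by_cases h : ∃ x ∈ I, ∃ i < n x, P x i = v
    · obtain ⟨x, hx, i, hi, e⟩ := h
      exact ⟨_, fun _ => Or.inl ⟨x, hx, i, hi, e, rfl⟩⟩
    · refine ⟨v, fun hv => Or.inr ⟨fun x hx i hi e => ?_, rfl⟩⟩
      rcases hi.lt_or_eq with hi | rfl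
      · exact h ⟨x, hx, i, hi, e⟩
      · exact hv (e ▸ (h1 x hx).2.1)
  choose φ hφ using h3
  refine ⟨φ, fun v hv => ?_, fun v hv w hw e => ?_, fun v hv y hy e => ?_, fun x hx y hy e => ?_⟩
  · rcases hφ v hv with ⟨x, hx, i, hi, e, e'⟩ | h
    · exact Or.inr (e' ▸ e ▸ (h1 x hx).2.2 i hi)
    · exact Or.inl h.2
  · rcases hφ v hv with ⟨x, hx, i, hi, e1, e2⟩ | h <;>
      rcases hφ w hw with ⟨y, hy, j, hj, e3, e4⟩ | h'
    · obtain ⟨rfl, e5⟩ := h2 x hx y hy _ hi _ hj (e2.symm.trans (e.trans e4))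
      rw [← e1, ← e3, Nat.succ_injective e5]
    · exact (h'.1 x hx _ hi (e2.symm.trans (e.trans h'.2))).elim
    · exact (h.1 y hy _ hj (e4.symm.trans (e.symm.trans h.2))).elim
    · exact h.2.symm.trans (e.trans h'.2)
  · rcases hφ v hv with ⟨x, hx, i, hi, -, e2⟩ | h
    · exact Nat.succ_ne_zero _ (h2 x hx y hy _ hi 0 (Nat.zero_le _)
        (e2.symm.trans (e.trans (h1 y hy).1.symm))).2
    · exact h.1 y hy 0 (Nat.zero_le _) ((h1 y hy).1.trans (e.symm.trans h.2))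
  · exact (h2 x hx y hy 0 (Nat.zero_le _) 0 (Nat.zero_le _)
      ((h1 x hx).1.trans (e.trans (h1 y hy).1.symm))).1

theorem Mat.linked [Finite V] {φ : V → V} (h : Mat D T s I φ) : Linked D T s I := by
  classical
  obtain ⟨h1, h2, h3, h4⟩ := h
  have key : ∀ x ∈ I, ∀ y ∈ I, ∀ i j, (∀ a < i, φ^[a] (s x) ∉ T) → (∀ a < j, φ^[a] (s y) ∉ T) →
      φ^[i] (s x) = φ^[j] (s y) → x = y ∧ i = j := fun x hx y hy i => by
    induction i with
    | zero =>
      rintro (_ | j) _ a2 e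
      · exact ⟨h4 hx hy e, rfl⟩
      · rw [iterate_succ_apply'] at e
        exact (h3 _ (a2 j j.lt_succ_self) x hx e.symm).elim
    | succ i ih =>
      rintro (_ | j) a1 a2 e
      · rw [iterate_succ_apply'] at e
        exact (h3 _ (a1 i i.lt_succ_self) y hy e).elim
      · rw [iterate_succ_apply', iterate_succ_apply'] at e
        exact (ih j (fun a ha => a1 a (ha.trans i.lt_succ_self))
          (fun a ha => a2 a (ha.trans j.lt_succ_self))
          (h2 _ (a1 i i.lt_succ_self) _ (a2 j j.lt_succ_self) e)).imp_right (congrArg _)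
  have h5 : ∀ x, ∃ n, x ∈ I → φ^[n] (s x) ∈ T ∧ ∀ a < n, φ^[a] (s x) ∉ T := fun x => by
    by_cases hx : x ∈ I
    · have h : ∃ n, φ^[n] (s x) ∈ T := by
        by_contra hc
        push Not at hc
        exact not_injective_infinite_finite (fun n : ℕ => φ^[n] (s x)) fun i j e =>
          (key x hx x hx i j (fun a _ => hc a) (fun a _ => hc a) e).2
      exact ⟨Nat.find h, fun _ => ⟨Nat.find_spec h, fun a ha => Nat.find_min h ha⟩⟩
    · exact ⟨0, fun h => (hx h).elim⟩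
  choose n hn using h5
  refine ⟨n, fun x i => φ^[i] (s x), fun x hx => ⟨rfl, (hn x hx).1, fun i hi => ?_⟩,
    fun x hx y hy i hi j hj => key x hx y hy i j (fun a ha => (hn x hx).2 a (ha.trans_le hi))
      fun a ha => (hn y hy).2 a (ha.trans_le hj)⟩
  beta_reduce
  rw [iterate_succ_apply']
  refine (h1 _ ((hn x hx).2 i hi)).resolve_left fun e => Nat.succ_ne_self i
    (key x hx x hx _ i (fun a ha => (hn x hx).2 a (ha.trans_le hi))
      (fun a ha => (hn x hx).2 a (ha.trans hi)) ?_).2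
  rwa [iterate_succ_apply']

variable {k : ℕ}

/-- The edges in play: uncoloured elements, and auxiliary edges at vertices outside `T`. -/
def Act (T : Set V) (U : Finset S) : S ⊕ V × Option (Fin k) → Prop :=
  Sum.elim (· ∈ U) fun y => y.1 ∉ T

/-- End vertices `b` and labels `q` of the edges in play. -/
structure Side (D : V → V → Prop) (T : Set V) (s : S → V) (U : Finset S)
    (b : S ⊕ V × Option (Fin k) → V) (q : S ⊕ V × Option (Fin k) → ℕ) : Prop where
  real : ∀ x, b (.inl x) = s x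
  loop : ∀ z, b (.inr (z, none)) = z ∧ q (.inr (z, none)) = k + 1
  arc : ∀ z ∉ T, ∀ i, b (.inr (z, some i)) = z ∨ D z (b (.inr (z, some i)))
  pos : ∀ e, Act T U e → 1 ≤ q e
  le : ∀ e, Act T U e → (∀ z, e ≠ .inr (z, none)) → q e ≤ k
  inj : ∀ e f, Act T U e → Act T U f → b e = b f → q e = q f → e = f
  cnt : ∀ z ∉ T, ∀ j ≤ k, j ≤ (univ.filter fun i => q (.inr (z, some i)) ≤ j).card

theorem exists_rk (q : S ⊕ V × Option (Fin k) → ℕ) : ∃ rk : V × Option (Fin k) → ℕ,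
    (∀ z o o', rk (z, o) = rk (z, o') → o = o') ∧ (∀ z, rk (z, none) = 0) ∧
      ∀ z i j, rk (z, some j) < rk (z, some i) → q (.inr (z, some j)) ≤ k →
        q (.inr (z, some i)) ≤ k → q (.inr (z, some i)) ≤ q (.inr (z, some j)) := by
  refine ⟨fun y => y.2.elim 0 fun i => (k - q (.inr y)) * k + i + 1, ?_, fun _ => rfl,
    fun z i j h a1 a2 => not_lt.1 fun a3 => ?_⟩
  · rintro z (_ | i) (_ | j) h
    · rfl
    · simp at h
    · simp at h
    · have := congrArg (· % k) (Nat.succ_injective h)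
      simp only [Nat.mul_add_mod_self_right, Nat.mod_eq_of_lt (Fin.is_lt _)] at this
      exact congrArg _ (Fin.ext this)
  · have a4 := Nat.mul_le_mul_right k
      (show k - q (.inr (z, some i)) + 1 ≤ k - q (.inr (z, some j)) by omega)
    have := i.is_lt
    simp only [Option.elim_some] at h
    rw [add_mul] at a4
    omega

theorem Side.step [Finite V] [DecidableEq S] {U U' : Finset S} {b : S ⊕ V × Option (Fin k) → V}
    {q : S ⊕ V × Option (Fin k) → ℕ} (h : Side D T s U b q) (hk : 0 < k)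
    {rk : V × Option (Fin k) → ℕ} (r2 : ∀ z, rk (z, none) = 0)
    (r3 : ∀ z i j, rk (z, some j) < rk (z, some i) → q (.inr (z, some j)) ≤ k →
      q (.inr (z, some i)) ≤ k → q (.inr (z, some i)) ≤ q (.inr (z, some j)))
    {M : Set (S ⊕ V × Option (Fin k))} (hU : ∀ x ∈ U', x ∈ U ∧ .inl x ∉ M)
    (m1 : ∀ e ∈ M, Act T U e) (m2 : Set.InjOn b M)
    (m3 : ∀ z o o', .inr (z, o) ∈ M → .inr (z, o') ∈ M → o = o')
    (m4 : ∀ z ∉ T, ∀ o, .inr (z, o) ∉ M →
      (∃ f ∈ M, b f = b (.inr (z, o)) ∧ q f < q (.inr (z, o))) ∨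
        ∃ o', .inr (z, o') ∈ M ∧ rk (z, o') < rk (z, o)) :
    Linked D T s {x | .inl x ∈ M} ∧ ∃ (b' : S ⊕ V × Option (Fin k) → V)
      (q' : S ⊕ V × Option (Fin k) → ℕ), Side D T s U' b' q' ∧ ∀ x, q' (.inl x) ≤ q (.inl x) ∧
        ((∃ f ∈ M, b f = b (.inl x) ∧ q f < q (.inl x)) → q' (.inl x) < q (.inl x)) := by
  classical
  have a0 : ∀ z ∉ T, ∀ i, q (.inr (z, some i)) ≤ k := fun z hz i => h.le _ hz (by simp)
  have a1 : ∀ z, ∃ o, z ∉ T → .inr (z, o) ∈ M := fun z => by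
    by_contra hc
    push Not at hc
    obtain ⟨i, hi⟩ := card_pos.1 (h.cnt z (hc none).1 1 hk)
    rcases m4 z (hc none).1 (some i) (hc _).2 with ⟨f, f1, -, f2⟩ | ⟨o, o1, -⟩
    · exact (f2.trans_le (mem_filter.1 hi).2).not_ge (h.pos f (m1 f f1))
    · exact (hc o).2 o1
  choose m hm using a1
  have a2 : ∀ z ∉ T, ∀ i, .inr (z, some i) ∈ M → ∃ f ∈ M, b f = z ∧ q f ≤ k := fun z hz i hi => by
    rcases m4 z hz none (fun h' => by cases m3 z _ _ h' hi) with ⟨f, f1, f2, f3⟩ | ⟨o, -, o1⟩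
    · exact ⟨f, f1, f2.trans (h.loop z).1, Nat.le_of_lt_succ (f3.trans_eq (h.loop z).2)⟩
    · exact absurd (o1.trans_eq (r2 z)) (Nat.not_lt_zero _)
  refine ⟨Mat.linked (φ := fun z => b (.inr (z, m z))) ⟨fun z hz => ?_, fun z hz w hw e => ?_,
    fun z hz x hx e => ?_, fun x hx y hy e => ?_⟩, ?_⟩
  · beta_reduce
    rcases m z with _ | i
    · exact Or.inl (h.loop z).1
    · exact h.arc z hz i
  · exact congrArg Prod.fst (Sum.inr_injective (m2 (hm z hz) (hm w hw) e))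
  · cases m2 (hm z hz) hx (e.trans (h.real x).symm)
  · exact Sum.inl_injective (m2 hx hy ((h.real x).trans (e.trans (h.real y).symm)))
  obtain ⟨g, g1, g2, g3⟩ : ∃ g : S ⊕ V × Option (Fin k) → ℕ, (∀ e, g e ≤ q e) ∧
      (∀ e, (∃ f ∈ M, b f = b e ∧ q f < q e) → g e + 1 = q e) ∧
      ∀ e, ¬ (∃ f ∈ M, b f = b e ∧ q f < q e) → g e = q e := by
    refine ⟨fun e => if ∃ f ∈ M, b f = b e ∧ q f < q e then q e - 1 else q e, fun e => ?_,
      fun e he => ?_, fun e he => if_neg he⟩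
    · beta_reduce
      split_ifs <;> omega
    · beta_reduce
      rw [if_pos he]
      obtain ⟨f, -, -, hf⟩ := he
      omega
  have g4 : ∀ e, Act T U e → 1 ≤ g e := fun e he => by
    by_cases h' : ∃ f ∈ M, b f = b e ∧ q f < q e
    · have := g2 e h'
      obtain ⟨f, f1, -, f2⟩ := h'
      have := h.pos f (m1 f f1)
      omega
    · exact g3 e h' ▸ h.pos e he
  have g5 : ∀ e f, Act T U e → Act T U f → f ∉ M → b e = b f → g e = g f →
      (∃ x ∈ M, b x = b e ∧ q x < q e) → e = f := fun e f he hf hf' e1 e2 h1 => by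
    have a3 := g2 e h1
    by_cases h2 : ∃ x ∈ M, b x = b f ∧ q x < q f
    · have := g2 f h2
      exact h.inj e f he hf e1 (by omega)
    · have := g3 f h2
      obtain ⟨x, x1, x2, x3⟩ := h1
      have a4 : ¬ q x < q f := fun a4 => h2 ⟨x, x1, x2.trans e1, a4⟩
      exact (hf' (h.inj x f (m1 x x1) hf (x2.trans e1) (by omega) ▸ x1)).elim
  have g6 : ∀ e f, Act T U e → Act T U f → e ∉ M → f ∉ M → b e = b f → g e = g f → e = f :=
    fun e f he hf he' hf' e1 e2 => by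
      by_cases h1 : ∃ x ∈ M, b x = b e ∧ q x < q e
      · exact g5 e f he hf hf' e1 e2 h1
      by_cases h2 : ∃ x ∈ M, b x = b f ∧ q x < q f
      · exact (g5 f e hf he he' e1.symm e2.symm h2).symm
      · exact h.inj e f he hf e1 ((g3 e h1).symm.trans (e2.trans (g3 f h2)))
  have g7 : ∀ z ∉ T, ∀ i, .inr (z, some i) ∈ M → ∀ f, Act T U f → f ∉ M → q f ≤ k → b f = z →
      g f < k := fun z hz i hi f hf hf' f1 f2 => by
    obtain ⟨x, x1, x2, x3⟩ := a2 z hz i hi
    rcases lt_trichotomy (q x) (q f) with a | a | a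
    · have := g2 f ⟨x, x1, x2.trans f2.symm, a⟩
      omega
    · exact (hf' (h.inj x f (m1 x x1) hf (x2.trans f2.symm) a ▸ x1)).elim
    · have := g1 f
      omega
  obtain ⟨b', q', c1, c2, c3, c4⟩ : ∃ (b' : S ⊕ V × Option (Fin k) → V)
      (q' : S ⊕ V × Option (Fin k) → ℕ), (∀ x, b' (.inl x) = b (.inl x) ∧ q' (.inl x) = g (.inl x)) ∧
      (∀ z, b' (.inr (z, none)) = z ∧ q' (.inr (z, none)) = k + 1) ∧
      (∀ z i, .inr (z, some i) ∈ M → b' (.inr (z, some i)) = z ∧ q' (.inr (z, some i)) = k) ∧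
      ∀ z i, .inr (z, some i) ∉ M → b' (.inr (z, some i)) = b (.inr (z, some i)) ∧
        q' (.inr (z, some i)) = g (.inr (z, some i)) :=
    ⟨Sum.elim (fun x => b (.inl x)) fun y => y.2.elim y.1 fun _ =>
        if Sum.inr y ∈ M then y.1 else b (.inr y),
      Sum.elim (fun x => g (.inl x)) fun y => y.2.elim (k + 1) fun _ =>
        if Sum.inr y ∈ M then k else g (.inr y),
      fun _ => ⟨rfl, rfl⟩, fun _ => ⟨rfl, rfl⟩, fun _ _ h => ⟨if_pos h, if_pos h⟩,
      fun _ _ h => ⟨if_neg h, if_neg h⟩⟩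
  have c5 : ∀ e, Act T U' e → (∃ z, e = .inr (z, none)) ∨
      (∃ z ∉ T, ∃ i, e = .inr (z, some i) ∧ e ∈ M) ∨
      Act T U e ∧ e ∉ M ∧ q e ≤ k ∧ b' e = b e ∧ q' e = g e := by
    rintro (x | ⟨z, _ | i⟩) he
    · exact Or.inr (Or.inr ⟨(hU x he).1, (hU x he).2, h.le _ (hU x he).1 (by simp), c1 x⟩)
    · exact Or.inl ⟨z, rfl⟩
    · by_cases h' : .inr (z, some i) ∈ M
      · exact Or.inr (Or.inl ⟨z, he, i, rfl, h'⟩)
      · exact Or.inr (Or.inr ⟨he, h', a0 z he i, c4 z i h'⟩)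
  refine ⟨b', q', ⟨fun x => (c1 x).1.trans (h.real x), c2, fun z hz i => ?_, fun e he => ?_,
    fun e he he' => ?_, fun e f he hf e1 e2 => ?_, fun z hz j hj => ?_⟩,
    fun x => ⟨(c1 x).2 ▸ g1 _, fun hx => ?_⟩⟩
  · by_cases h' : .inr (z, some i) ∈ M
    · exact Or.inl (c3 z i h').1
    · exact (c4 z i h').1 ▸ h.arc z hz i
  · rcases c5 e he with ⟨z, rfl⟩ | ⟨z, -, i, rfl, h'⟩ | ⟨a, -, -, -, h'⟩
    · exact (c2 z).2 ▸ Nat.le_add_left 1 k
    · exact (c3 z i h').2.symm ▸ hk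
    · exact h' ▸ g4 e a
  · rcases c5 e he with ⟨z, rfl⟩ | ⟨z, -, i, rfl, h'⟩ | ⟨-, -, a, -, h'⟩
    · exact (he' z rfl).elim
    · exact (c3 z i h').2.le
    · exact h' ▸ (g1 e).trans a
  · rcases c5 e he with ⟨z, rfl⟩ | ⟨z, hz, i, rfl, h1⟩ | ⟨a1, a2, a3, a4, a5⟩ <;>
      rcases c5 f hf with ⟨w, rfl⟩ | ⟨w, hw, j, rfl, h2⟩ | ⟨d1, d2, d3, d4, d5⟩
    · rw [(c2 z).1, (c2 w).1] at e1
      rw [e1]
    · rw [(c2 z).2, (c3 w j h2).2] at e2
      omega
    · have := g1 f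
      rw [(c2 z).2] at e2
      omega
    · rw [(c2 w).2, (c3 z i h1).2] at e2
      omega
    · rw [(c3 z i h1).1, (c3 w j h2).1] at e1
      subst e1
      rw [m3 z _ _ h1 h2]
    · have := g7 z hz i h1 f d1 d2 d3 (d4.symm.trans (e1.symm.trans (c3 z i h1).1))
      rw [(c3 z i h1).2] at e2
      omega
    · have := g1 e
      rw [(c2 w).2] at e2
      omega
    · have := g7 w hw j h2 e a1 a2 a3 (a4.symm.trans (e1.trans (c3 w j h2).1))
      rw [(c3 w j h2).2] at e2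
      omega
    · exact g6 e f a1 d1 a2 d2 (a4.symm.trans (e1.trans d4)) (a5.symm.trans (e2.trans d5))
  · have a3 : ∀ i, .inr (z, some i) ∉ M → q' (.inr (z, some i)) ≤ q (.inr (z, some i)) :=
      fun i hi => (c4 z i hi).2 ▸ g1 _
    by_cases hc : ∃ i, .inr (z, some i) ∈ M ∧ q (.inr (z, some i)) ≤ j
    · obtain ⟨i, i1, i2⟩ := hc
      rcases hj.lt_or_eq with hj | rfl
      · have a4 := h.cnt z hz (j + 1) hj
        have a5 := card_le_card (show (univ.filter fun i => q (.inr (z, some i)) ≤ j + 1).erase i ⊆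
            univ.filter fun i => q' (.inr (z, some i)) ≤ j from fun l hl => by
          obtain ⟨l1, l2⟩ := mem_erase.1 hl
          have l3 : .inr (z, some l) ∉ M := fun h' => l1 (Option.some_injective _ (m3 z _ _ h' i1))
          have l4 := (mem_filter.1 l2).2
          refine mem_filter.2 ⟨mem_univ _, ?_⟩
          rcases m4 z hz _ l3 with h' | ⟨o, o1, o2⟩
          · have := g2 _ h'
            rw [(c4 z l l3).2]
            omega
          · rw [m3 z _ _ o1 i1] at o2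
            exact (a3 l l3).trans ((r3 z l i o2 (a0 z hz i) (a0 z hz l)).trans i2))
        have := pred_card_le_card_erase (a := i)
          (s := univ.filter fun i => q (.inr (z, some i)) ≤ j + 1)
        omega
      · rw [filter_true_of_mem fun l _ => ?_, card_fin]
        by_cases h' : .inr (z, some l) ∈ M
        · exact (c3 z l h').2.le
        · exact (a3 l h').trans (a0 z hz l)
    · exact (h.cnt z hz j hj).trans (card_le_card (monotone_filter_right _ fun l _ hl =>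
        (a3 l fun h' => hc ⟨l, h', hl⟩).trans hl))
  · have := g2 _ hx
    rw [(c1 x).2]
    omega

end Pool.Agent.Lib.MP_ba7882_co
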