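import Mathlib

/-! Demands of partition type are met by colouring the parts injectively. -/

set_option autoImplicit false

namespace Pool.Agent.Lib.MP_ba7882_co

open Finset Function

theorem exists_slot {S α : Type} [Fintype S] [DecidableEq α] {k : ℕ} (a : S → α)
    (h : ∀ x, (univ.filter fun s => a s = x).card ≤ k) :
    ∃ l : S → α × Fin k, Injective l ∧ ∀ s, (l s).1 = a s := by
  obtain ⟨n, hn⟩ := exists_injective_nat S
  have h1 : ∀ s t, a s = a t → n s < n t → (univ.filter fun u => a u = a s ∧ n u < n s).card <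
      (univ.filter fun u => a u = a t ∧ n u < n t).card := fun s t e1 e2 =>
    card_lt_card ⟨monotone_filter_right _ fun u _ h => ⟨h.1.trans e1, h.2.trans e2⟩,
      fun h => (mem_filter.1 (h (mem_filter.2 ⟨mem_univ s, e1, e2⟩))).2.2.false⟩
  refine ⟨fun s => (a s, ⟨(univ.filter fun u => a u = a s ∧ n u < n s).card,
    lt_of_lt_of_le (card_lt_card ⟨monotone_filter_right _ fun u _ h => h.1,
      fun h => (mem_filter.1 (h (mem_filter.2 ⟨mem_univ s, rfl⟩))).2.2.false⟩) (h (a s))⟩),
    fun s t e => hn ?_, fun _ => rfl⟩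
  simp only [Prod.mk.injEq, Fin.mk.injEq] at e
  exact le_antisymm (not_lt.1 fun h => (h1 t s e.1.symm h).ne' e.2)
    (not_lt.1 fun h => (h1 s t e.1 h).ne e.2)

theorem exists_part {S : Type} [Fintype S] [DecidableEq S] {k : ℕ} (hk : 0 < k)
    {p : Finset S → ℤ} (hd : ∀ X Y, 2 ≤ p X → 2 ≤ p Y → X = Y ∨ Disjoint X Y)
    (h1 : ∀ X, p X ≤ X.card) (h2 : ∀ X, p X ≤ k) :
    ∃ l : S → Finset S × Fin k, Injective l ∧ ∀ c : S → ℕ,
      (∀ s t, c s = c t → (l s).1 = (l t).1 → s = t) → ∀ X, p X ≤ (X.image c).card := by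
  classical
  choose T T1 T2 using fun X =>
    exists_subset_card_eq (s := X) (n := (p X).toNat) (by have := h1 X; omega)
  obtain ⟨a, a1, a2⟩ : ∃ a : S → Finset S, (∀ s, s ∈ a s ∧ (a s).card ≤ k) ∧
      ∀ X, 2 ≤ p X → ∀ s ∈ T X, a s = T X := by
    refine ⟨fun s => if h : ∃ X, 2 ≤ p X ∧ s ∈ T X then T h.choose else {s}, fun s => ?_,
      fun X hX s hs => ?_⟩
    · beta_reduce
      split_ifs with h
      · exact ⟨h.choose_spec.2, by have := h2 h.choose; rw [T2]; omega⟩
      · exact ⟨mem_singleton_self s, hk⟩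
    · have h : ∃ X, 2 ≤ p X ∧ s ∈ T X := ⟨X, hX, hs⟩
      beta_reduce
      rw [dif_pos h, (hd _ X h.choose_spec.1 hX).resolve_right fun e =>
        disjoint_left.1 e (T1 _ h.choose_spec.2) (T1 X hs)]
  obtain ⟨l, l1, l2⟩ := exists_slot (k := k) a fun x => by
    rcases (univ.filter fun s => a s = x).eq_empty_or_nonempty with h | ⟨s, hs⟩
    · rw [h]
      exact Nat.zero_le _
    · obtain rfl := (mem_filter.1 hs).2
      exact (card_le_card fun t ht => (mem_filter.1 ht).2 ▸ (a1 t).1).trans (a1 s).2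
  refine ⟨l, l1, fun c hc X => ?_⟩
  by_cases hX : 2 ≤ p X
  · have h3 := card_le_card (image_subset_image (f := c) (T1 X))
    rw [card_image_of_injOn fun s hs t ht e =>
      hc s t e (by rw [l2, l2, a2 X hX s hs, a2 X hX t ht]), T2] at h3
    omega
  · rcases X.eq_empty_or_nonempty with rfl | h
    · exact h1 ∅
    · have := card_pos.2 (h.image c)
      omega

end Pool.Agent.Lib.MP_ba7882_co
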