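import Pool.Agent.Lib.MP_ba7882_co.Run
import Pool.Agent.Lib.MP_ba7882_co.Part

/-! Equitable list colouring for a skew-supermodular function and a partition. -/

set_option autoImplicit false

namespace Pool.Agent.Lib.MP_ba7882_co

open Finset Function

/-- Skew-supermodularity, asked only of intersecting sets of value at least two. -/
def Skew {E : Type} [DecidableEq E] (p : Finset E → ℤ) : Prop :=
  ∀ X Y, 2 ≤ p X → 2 ≤ p Y → (X ∩ Y).Nonempty →
    p X + p Y ≤ p (X ∩ Y) + p (X ∪ Y) ∨ p X + p Y ≤ p (X \ Y) + p (Y \ X)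

theorem exists_good {E : Type} [DecidableEq E] {p : Finset E → ℤ} (h : Skew p) :
    ∃ G : Finset E → ℕ, Good G ∧ (∀ X, p X ≤ G X) ∧
      ∀ X (n : ℕ), (∀ Z ⊆ X, p Z ≤ n) → G X ≤ n := by
  obtain ⟨G, hG⟩ : ∃ G : Finset E → ℕ, ∀ X, G X = X.powerset.sup fun Z => (p Z).toNat :=
    ⟨_, fun _ => rfl⟩
  have h1 : ∀ X, p X ≤ G X := fun X => by
    have := le_sup (f := fun Z => (p Z).toNat) (mem_powerset_self X)
    rw [← hG] at this
    omega
  have h2 : ∀ X, Eff G X → (G X : ℤ) = p X := fun X hX => by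
    obtain ⟨Z, z1, z2⟩ := exists_mem_eq_sup X.powerset ⟨X, mem_powerset_self X⟩
      fun Z => (p Z).toNat
    rw [← hG] at z2
    have := h1 Z
    have := hX.1
    obtain rfl := hX.eq_of_le (mem_powerset.1 z1) (by omega)
    omega
  refine ⟨G, ⟨fun X Y e => ?_, fun X Y hX hY e => ?_⟩, h1, fun X n hn => ?_⟩
  · rw [hG, hG]
    exact sup_mono (powerset_mono.2 e)
  · have a1 := h2 X hX
    have a2 := h2 Y hY
    have a3 := hX.1
    have a4 := hY.1
    have a5 := hX.2 _ (sdiff_ssubset (inter_subset_left (s₂ := Y)) e)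
    have a6 := hY.2 _ (sdiff_ssubset (inter_subset_right (s₁ := X)) e)
    rw [sdiff_inter_self_left] at a5
    rw [sdiff_inter_self_right] at a6
    have := h X Y (by omega) (by omega) e
    have := h1 (X ∩ Y)
    have := h1 (X ∪ Y)
    have := h1 (X \ Y)
    have := h1 (Y \ X)
    omega
  · rw [hG]
    refine Finset.sup_le fun Z hZ => ?_
    have := hn Z (mem_powerset.1 hZ)
    omega

theorem exists_ext {S : Type} [DecidableEq S] {k : ℕ} (Z : Type) [DecidableEq Z] (hk : 0 < k)
    {p : Finset S → ℤ}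
    (hp : Skew p) (h1 : ∀ X, p X ≤ X.card) (h2 : ∀ X, p X ≤ k) :
    ∃ P : Finset (S ⊕ Z × Fin k) → ℤ, Skew P ∧ (∀ X, P X ≤ X.card) ∧ (∀ X, P X ≤ k) ∧
      (∀ X, P (X.image .inl) = p X) ∧ ∀ z, P (univ.image fun i => .inr (z, i)) = k := by
  classical
  refine ⟨fun X => if X.toRight = ∅ then p X.toLeft else
    if ∃ z, X = univ.image fun i => .inr (z, i) then k else 0, fun X Y hX hY e => ?_,
    fun X => ?_, fun X => ?_, fun X => ?_, fun z => ?_⟩
  · obtain ⟨x, hx⟩ := e
    rw [mem_inter] at hx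
    have key : ∀ X : Finset (S ⊕ Z × Fin k), x ∈ X → 2 ≤ (if X.toRight = ∅ then p X.toLeft else
        if ∃ z, X = univ.image fun i => .inr (z, i) then k else 0) →
        (X.toRight = ∅ ∧ ∃ s, x = .inl s) ∨ ∃ y, x = .inr y ∧
          X = univ.image fun i => .inr (y.1, i) := fun X hx h => by
      split_ifs at h with a1 a2
      · rcases x with s | y
        · exact Or.inl ⟨a1, s, rfl⟩
        · exact absurd (mem_toRight.2 hx) (by simp [a1])
      · obtain ⟨z, rfl⟩ := a2
        obtain ⟨i, -, rfl⟩ := mem_image.1 hx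
        exact Or.inr ⟨_, rfl, rfl⟩
      · omega
    rcases key X hx.1 hX with ⟨a1, s, rfl⟩ | ⟨y, rfl, a1⟩ <;>
      rcases key Y hx.2 hY with ⟨a2, t, a3⟩ | ⟨w, a3, a2⟩
    · simp only [a1, a2, if_true] at hX hY
      simpa [a1, a2, toRight_inter, toRight_union, toRight_sdiff, toLeft_inter, toLeft_union,
        toLeft_sdiff] using hp _ _ hX hY ⟨s, by simpa using hx⟩
    · cases a3
    · cases a3
    · cases a3
      rw [a1.trans a2.symm, inter_self, union_self]
      exact Or.inl le_rfl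
  · beta_reduce
    split_ifs with a1 a2
    · exact (h1 _).trans (by exact_mod_cast card_toLeft_le)
    · obtain ⟨z, rfl⟩ := a2
      rw [card_image_of_injective _ fun i j e => by simpa using e, card_fin]
    · omega
  · beta_reduce
    split_ifs
    · exact h2 _
    · exact le_rfl
    · omega
  · beta_reduce
    rw [if_pos (by ext; simp)]
    congr 1
    ext
    simp
  · beta_reduce
    rw [if_neg (ne_empty_of_mem (a := (z, ⟨0, hk⟩)) (by simp)), if_pos ⟨z, rfl⟩]

theorem skew_multi {S β : Type} [Fintype S] [Fintype β] [DecidableEq S] [DecidableEq β] {k r : ℕ}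
    (hk : 0 < k) {p : Finset S → ℤ} (hp : Skew p) (h1 : ∀ X, p X ≤ X.card) (h2 : ∀ X, p X ≤ k)
    {ρ : S → β × Fin k} (hρ : Injective ρ) (hr : Fintype.card S ≤ k * r) (L : S → Finset ℕ)
    (hL : ∀ s, k ≤ (L s).card) : ∃ c : S → ℕ, (∀ s, c s ∈ L s) ∧
      (∀ X, p X ≤ (X.image c).card) ∧ (∀ s t, c s = c t → (ρ s).1 = (ρ t).1 → s = t) ∧
      ∀ i, (univ.filter fun s => c s = i).card ≤ r := by
  obtain ⟨m, hm⟩ : ∃ m, m = Fintype.card β - r := ⟨_, rfl⟩
  obtain ⟨j⟩ : Nonempty (S ⊕ Fin m × Fin k ↪ β × Fin k) := by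
    refine Embedding.nonempty_of_card_le ?_
    have h := Fintype.card_le_of_injective ρ hρ
    simp only [Fintype.card_sum, Fintype.card_prod, Fintype.card_fin] at h ⊢
    rcases le_total r (Fintype.card β) with h' | h'
    · obtain ⟨d, hd⟩ := Nat.exists_eq_add_of_le h'
      rw [hm, hd, Nat.add_sub_cancel_left]
      linarith
    · rw [hm, Nat.sub_eq_zero_of_le h']
      linarith
  obtain ⟨σ, hσ⟩ := Equiv.Perm.exists_extending_pair (fun s => j (.inl s)) ρ
    (j.injective.comp Sum.inl_injective) hρ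
  obtain ⟨b, b1, b2⟩ : ∃ b : S ⊕ Fin m × Fin k → β, (∀ s, b (.inl s) = (ρ s).1) ∧
      ∀ y, (univ.filter fun e => b e = y).card ≤ k := by
    refine ⟨fun e => (σ (j e)).1, fun s => congrArg _ (hσ s), fun y => ?_⟩
    refine (card_le_card_of_injOn (t := univ) (fun e => (σ (j e)).2) (fun _ _ => mem_univ _)
      fun e he f hf h => j.injective (σ.injective (Prod.ext ?_ h))).trans_eq (card_fin k)
    exact (mem_filter.1 he).2.trans (mem_filter.1 hf).2.symm
  obtain ⟨P, p1, p2, p3, p4, p5⟩ := exists_ext (Fin m) hk hp h1 h2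
  obtain ⟨G, g1, g2, g3⟩ := exists_good p1
  obtain ⟨π, q, lt, s1, s2, s3⟩ := init b univ G g1 fun X => g3 X _ fun Z hZ =>
    (p2 Z).trans (by rw [inter_univ]; exact_mod_cast card_le_card hZ)
  have s4 : ∀ e, π e + q e ≤ k + 1 := fun e => (s3 e (mem_univ e)).2.2.2.trans
    (Nat.succ_le_succ (max_le (dd_le hk fun X _ _ => g3 X k fun Z _ => p3 Z) (b2 _)))
  obtain ⟨c, c1, c2, c3, c4⟩ := run b r (Sum.elim L fun _ => ∅) (univ.biUnion L) G univ
    (univ.image .inl) π q lt g1 s1 (subset_univ _)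
    ⟨fun e _ => (s3 e (mem_univ e)).1, fun e _ f _ => s2 e (mem_univ e) f (mem_univ f), fun i => by
      rcases le_or_gt k i with hi | hi
      · exact (card_filter_le _ _).trans (card_image_le.trans (hr.trans (mul_le_mul_left hi r)))
      have a1 : (univ.filter fun e => q e ≤ i).card ≤ Fintype.card β * i := by
        refine (card_le_card_of_injOn (t := univ ×ˢ Icc 1 i) (fun e => (b e, q e))
          (fun e he => ?_) fun e _ f _ h => s2 e (mem_univ e) f (mem_univ f)
            (congrArg Prod.fst h) (congrArg Prod.snd h)).trans_eq (by simp)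
        exact mem_coe.2 (mem_product.2 ⟨mem_univ _,
          mem_Icc.2 ⟨(s3 e (mem_univ e)).1, (mem_filter.1 he).2⟩⟩)
      have a2 : m * i ≤ (univ.filter fun e => q e ≤ i).toRight.card := by
        rw [card_eq_sum_card_fiberwise (f := Prod.fst) (t := univ) fun _ _ => mem_univ _]
        refine le_of_eq_of_le (by simp) (card_nsmul_le_sum univ _ i fun z _ => ?_)
        have a3 := s1.dom g1 (univ.image fun i => .inr (z, i)) (k - i)
        have a4 := g2 (univ.image fun i => .inr (z, i))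
        rw [p5] at a4
        refine le_trans (by omega) ((card_le_card (s := ((univ.image fun i => .inr (z, i)) ∩
          univ).filter fun e => k - i < π e) fun e he => ?_).trans (card_image_le (f := .inr)))
        obtain ⟨e1, e2⟩ := mem_filter.1 he
        obtain ⟨y, -, rfl⟩ := mem_image.1 (mem_inter.1 e1).1
        have := s4 (.inr (z, y))
        exact mem_image_of_mem _ (mem_filter.2
          ⟨mem_toRight.2 (mem_filter.2 ⟨mem_univ _, by omega⟩), rfl⟩)
      have a3 := card_toLeft_add_card_toRight (u := univ.filter fun e => q e ≤ i)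
      have a4 : ((univ.image .inl).filter fun e => q e ≤ i).card ≤
          (univ.filter fun e => q e ≤ i).toLeft.card := by
        refine (card_le_card fun e he => ?_).trans (card_image_le (f := .inl))
        obtain ⟨s, -, rfl⟩ := mem_image.1 (mem_filter.1 he).1
        exact mem_image_of_mem _ (mem_toLeft.2 (mem_filter.2 ⟨mem_univ _, (mem_filter.1 he).2⟩))
      have a5 := mul_le_mul_left (show Fintype.card β ≤ m + r by omega) i
      rw [add_mul, mul_comm r] at a5
      omega⟩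
    fun e he => by
      obtain ⟨s, -, rfl⟩ := mem_image.1 he
      rw [Sum.elim_inl, inter_eq_left.2 (subset_biUnion_of_mem L (mem_univ s))]
      exact (s4 _).trans (Nat.succ_le_succ (hL s))
  have h3 : ∀ s : S, Sum.inl s ∈ (univ.image .inl : Finset (S ⊕ Fin m × Fin k)) :=
    fun s => mem_image_of_mem _ (mem_univ s)
  refine ⟨fun s => c (.inl s), fun s => (mem_inter.1 (c1 _ (h3 s))).1, fun X => ?_,
    fun s t e1 e2 => Sum.inl_injective (c2 _ (h3 s) _ (h3 t) e1 (by rwa [b1, b1])),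
    fun i => (card_le_card_of_injOn Sum.inl (fun s hs => ?_)
      Sum.inl_injective.injOn).trans (c4 i)⟩
  · have a1 := c3 (X.image .inl)
    have a2 : X.image .inl ⊆ (univ.image .inl : Finset (S ⊕ Fin m × Fin k)) :=
      image_subset_image (subset_univ X)
    rw [inter_eq_left.2 a2, image_image,
      disjoint_iff_inter_eq_empty.1 (disjoint_sdiff.mono_left a2), card_empty] at a1
    exact (p4 X).ge.trans ((g2 _).trans (by exact_mod_cast a1))
  · exact mem_coe.2 (mem_filter.2 ⟨h3 s, (mem_filter.1 hs).2⟩)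

theorem general {S : Type} [Fintype S] [DecidableEq S] {k : ℕ} {p₁ p₂ : Finset S → ℤ}
    (L : S → Finset ℕ) (hk : 0 < k) (h₁ : Skew p₁)
    (h₂ : ∀ X Y : Finset S, 2 ≤ p₂ X → 2 ≤ p₂ Y → X = Y ∨ Disjoint X Y)
    (hb : ∀ X : Finset S, max (p₁ X) (p₂ X) ≤ min (X.card : ℤ) (k : ℤ))
    (hL : ∀ s : S, (L s).card = k) :
    ∃ c : S → ℕ, (∀ s : S, c s ∈ L s) ∧
      (∀ X : Finset S, max (p₁ X) (p₂ X) ≤ ((X.image c).card : ℤ)) ∧
      ∀ i : ℕ, (Finset.univ.filter fun s : S => c s = i).card ≤ ⌈(Fintype.card S : ℚ) / k⌉₊ := by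
  simp only [max_le_iff, le_min_iff] at hb
  obtain ⟨ρ, r1, r2⟩ := exists_part hk h₂ (fun X => (hb X).1.2) fun X => (hb X).2.2
  have h := Nat.le_ceil ((Fintype.card S : ℚ) / k)
  rw [div_le_iff₀' (by exact_mod_cast hk)] at h
  obtain ⟨c, c1, c2, c3, c4⟩ := skew_multi hk h₁ (fun X => (hb X).1.1) (fun X => (hb X).2.1) r1
    (by exact_mod_cast h) L fun s => (hL s).ge
  exact ⟨c, c1, fun X => max_le (c2 X) (r2 c c3 X), c4⟩

end Pool.Agent.Lib.MP_ba7882_co
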