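import Pool.Agent.Lib.MP_ba7882_co.Gam
import Pool.Agent.Lib.MP_ba7882_co.Skew

/-! List colouring for a skew-supermodular function and a gammoid. -/

set_option autoImplicit false

namespace Pool.Agent.Lib.MP_ba7882_co

open Finset Function

variable {S V Z : Type} {k : ℕ} {D : V → V → Prop} {T : Set V} {s : S → V}

theorem round_mix [Fintype S] [Fintype V] [DecidableEq S] {U A : Finset S}
    {b : S ⊕ V × Option (Fin k) → V} {q : S ⊕ V × Option (Fin k) → ℕ} (hk : 0 < k)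
    (h : Side D T s U b q) {lt : S → S → Prop} (hi : ∀ x, ¬ lt x x)
    (ht : ∀ x y z, lt x y → lt y z → lt x z) (hA : A ⊆ U) :
    ∃ K ⊆ A, (∀ x ∈ K, ∀ y ∈ K, ¬ lt x y) ∧ Linked D T s K ∧
      ∃ (b' : S ⊕ V × Option (Fin k) → V) (q' : S ⊕ V × Option (Fin k) → ℕ),
        Side D T s (U \ K) b' q' ∧ ∀ x, q' (.inl x) ≤ q (.inl x) ∧
          (x ∈ A → x ∉ K → (∃ w ∈ K, lt w x) ∨ q' (.inl x) < q (.inl x)) := by
  classical
  obtain ⟨rk, r1, r2, r3⟩ := exists_rk q
  obtain ⟨B, hB⟩ : ∃ B : Finset (S ⊕ V × Option (Fin k)), ∀ e, e ∈ B ↔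
      Sum.elim (· ∈ A) (fun y => y.1 ∉ T) e :=
    ⟨univ.filter _, fun _ => mem_filter.trans (and_iff_right (mem_univ _))⟩
  have b1 : ∀ w ∈ B, Act T U w := by
    rintro (x | y) hw
    exacts [hA ((hB _).1 hw), (hB _).1 hw]
  obtain ⟨M, ⟨m1, m2, m3, m4⟩, -⟩ := improve
    (lt := Sum.LiftRel lt fun y w => y.1 = w.1 ∧ rk y < rk w) (A := B) (b := b) (q := q)
    (by rintro _ (h | h); exacts [hi _ h, h.2.false])
    (by
      rintro _ _ _ (h | h) (h' | h')
      exacts [.inl (ht _ _ _ h h'), .inr ⟨h.1.trans h'.1, h.2.trans h'.2⟩])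
    (fun e he f hf => h.inj e f (b1 e he) (b1 f hf)) B Subset.rfl fun e he h => (h he).elim
  obtain ⟨K, hK⟩ : ∃ K : Finset S, ∀ x, x ∈ K ↔ .inl x ∈ M := ⟨M.toLeft, fun _ => mem_toLeft⟩
  obtain ⟨a1, b', q', a2, a3⟩ := h.step (U' := U \ K) (M := M) hk r2 r3
    (fun x hx => ⟨(mem_sdiff.1 hx).1, mt (hK x).2 (mem_sdiff.1 hx).2⟩)
    (fun e he => b1 e (m1 he)) m3
    (fun z o o' h1 h2 => r1 z o o' (le_antisymm (not_lt.1 fun h => m2 _ h2 _ h1 (.inr ⟨rfl, h⟩))
      (not_lt.1 fun h => m2 _ h1 _ h2 (.inr ⟨rfl, h⟩))))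
    fun z hz o ho => by
      obtain ⟨f, hf, h1 | h1⟩ := m4 (.inr (z, o)) ((hB _).2 hz) ho
      · rcases h1 with _ | @⟨⟨w, o'⟩, _, rfl, h1⟩
        exact Or.inr ⟨o', hf, h1⟩
      · exact Or.inl ⟨f, hf, h1⟩
  refine ⟨K, fun x hx => (hB _).1 (m1 ((hK x).1 hx)),
    fun x hx y hy e => m2 _ ((hK x).1 hx) _ ((hK y).1 hy) (.inl e),
    (show (K : Set S) = {x | .inl x ∈ M} from Set.ext hK) ▸ a1, b', q', a2,
    fun x => ⟨(a3 x).1, fun hx hx' => ?_⟩⟩
  obtain ⟨f, hf, h1 | h1⟩ := m4 (.inl x) ((hB _).2 hx) (mt (hK x).2 hx')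
  · rcases h1 with @⟨w, _, h1⟩
    exact Or.inl ⟨w, (hK w).2 hf, h1⟩
  · exact Or.inr ((a3 x).2 ⟨f, hf, h1⟩)

theorem run_mix [Fintype S] [Fintype V] [DecidableEq S] (hk : 0 < k) (L : S → Finset ℕ)
    (C : Finset ℕ) : ∀ (G : Finset S → ℕ) (R U : Finset S) (π : S → ℕ) (lt : S → S → Prop)
      (b : S ⊕ V × Option (Fin k) → V) (q : S ⊕ V × Option (Fin k) → ℕ), Good G → Str G R π lt →
      U ⊆ R → Side D T s U b q → (∀ e ∈ U, π e + q (.inl e) ≤ (L e ∩ C).card + 1) →
      ∃ c : S → ℕ, (∀ e ∈ U, c e ∈ L e ∩ C) ∧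
        (∀ X, G X ≤ ((X ∩ U).image c).card + (X ∩ (R \ U)).card) ∧
        ∀ i, Linked D T s {e | e ∈ U ∧ c e = i} := by
  induction C using Finset.induction_on with
  | empty =>
    intro G R U π lt b q hG hs hU hq h
    obtain rfl : U = ∅ := eq_empty_of_forall_notMem fun e he => by
      have h1 := h e he
      have h2 := hs.pos e (hU he)
      have h3 := hq.pos (.inl e) he
      rw [inter_empty, card_empty] at h1
      omega
    exact ⟨0, by simp, fun X => by simpa using hs.le_card hG X, fun i => by simp [Linked.empty]⟩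
  | insert i C hi ih =>
    intro G R U π lt b q hG hs hU hq h
    classical
    obtain ⟨M, m1, m2, m3, b', q', m5, m6⟩ := round_mix hk hq
      (fun x h => (hs.rel hG x x h).1 rfl) (hs.trans hG) (filter_subset (fun e => i ∈ L e) U)
    have m0 : M ⊆ U := m1.trans (filter_subset _ _)
    obtain ⟨σ, hσ⟩ : ∃ σ : S → ℕ, ∀ u, (π u ≤ σ u + 1 ∧ ((∀ w ∈ M, ¬ lt w u) → π u ≤ σ u)) ∧
        σ u ≤ π u ∧ ((∃ w ∈ M, lt w u) → σ u ≤ π u - 1) := by
      refine ⟨fun u => if ∃ w ∈ M, lt w u then π u - 1 else π u, fun u => ?_⟩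
      beta_reduce
      split_ifs with h
      · exact ⟨⟨by omega, fun h' => h.elim fun w hw => (h' w hw.1 hw.2).elim⟩, by omega,
          fun _ => le_rfl⟩
      · exact ⟨⟨by omega, fun _ => le_rfl⟩, le_rfl, fun h' => (h h').elim⟩
    obtain ⟨lt', h1⟩ := hs.reduce hG M (m0.trans hU) m2 σ fun u _ _ => (hσ u).1
    obtain ⟨c, c1, c3, c4⟩ := ih _ _ (U \ M) _ lt' b' q' (hG.red M) h1
      (sdiff_subset_sdiff hU Subset.rfl) m5 fun e he => by
        obtain ⟨e1, e2⟩ := mem_sdiff.1 he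
        have h2 := h e e1
        have h3 := hs.pos e (hU e1)
        have h4 := (m6 e).1
        have h6 := (hσ e).2.1
        by_cases h5 : i ∈ L e
        · rw [inter_insert_of_mem h5, card_insert_of_notMem (by simp [hi])] at h2
          have := ((m6 e).2 (mem_filter.2 ⟨e1, h5⟩) e2).imp_left (hσ e).2.2
          omega
        · rw [inter_insert_of_notMem h5] at h2
          omega
    clear ih h hσ h1 hs hq m2 m5 m6
    have c0 : ∀ e ∈ U, e ∉ M → c e ≠ i := fun e e1 e2 e3 =>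
      hi (e3 ▸ (mem_inter.1 (c1 e (mem_sdiff.2 ⟨e1, e2⟩))).2)
    refine ⟨fun e => if e ∈ M then i else c e, fun e he => ?_, fun X => ?_, fun j => ?_⟩
    · have := c1 e
      have := @m1 e
      grind
    · have h2 := c3 X
      rw [show (R \ M) \ (U \ M) = R \ U by grind] at h2
      by_cases hd : Disjoint X M
      · have h3 := le_red hG.mono (Subset.refl X) hd
        have h4 := card_le_card (show (X ∩ (U \ M)).image c ⊆
          (X ∩ U).image fun e => if e ∈ M then i else c e by grind)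
        omega
      · obtain ⟨x, x1, x2⟩ := not_disjoint_iff.1 hd
        have h3 := le_red' (Z := X) (Y := X) (K := M) hG.mono subset_union_left
        have h4 := card_le_card (show insert i ((X ∩ (U \ M)).image c) ⊆
          (X ∩ U).image fun e => if e ∈ M then i else c e from insert_subset
            (mem_image.2 ⟨x, mem_inter.2 ⟨x1, m0 x2⟩, if_pos x2⟩) (by grind))
        rw [card_insert_of_notMem (by grind)] at h4
        omega
    · by_cases hj : j = i
      · rwa [show {x | x ∈ U ∧ (if x ∈ M then i else c x) = j} = (M : Set S) from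
          Set.ext fun x => by
            have := @m0 x
            have := c0 x
            grind]
      · rw [show {x | x ∈ U ∧ (if x ∈ M then i else c x) = j} = {x | x ∈ U \ M ∧ c x = j} from
          Set.ext fun x => by grind]
        exact c4 j

theorem Side.lift [Fintype S] [DecidableEq (S ⊕ Z)] {b : S ⊕ V × Option (Fin k) → V}
    {q : S ⊕ V × Option (Fin k) → ℕ} (h : Side D T s univ b q) (t : Z → V) :
    Side D T (Sum.elim s t) (univ.image .inl) (Sum.elim (Sum.elim s t) fun y => b (.inr y))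
      (Sum.elim (Sum.elim (fun x => q (.inl x)) 0) fun y => q (.inr y)) := by
  have a : ∀ e : (S ⊕ Z) ⊕ V × Option (Fin k), Act T (univ.image .inl) e →
      ∃ w, Act T univ w ∧ e = w.map .inl id := by
    rintro (x | y) he
    · obtain ⟨x, hx, rfl⟩ := mem_image.1 he
      exact ⟨.inl x, hx, rfl⟩
    · exact ⟨.inr y, he, rfl⟩
  have a1 : ∀ w : S ⊕ V × Option (Fin k),
      Sum.elim (Sum.elim s t) (fun y => b (.inr y)) (w.map .inl id) = b w ∧
      Sum.elim (Sum.elim (fun x => q (.inl x)) (0 : Z → ℕ)) (fun y => q (.inr y))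
        (w.map .inl id) = q w := by
    rintro (x | y)
    exacts [⟨(h.real x).symm, rfl⟩, ⟨rfl, rfl⟩]
  refine ⟨fun _ => rfl, h.loop, h.arc, fun e he => ?_, fun e he he' => ?_,
    fun e f he hf e1 e2 => ?_, h.cnt⟩
  · obtain ⟨w, hw, rfl⟩ := a e he
    exact (a1 w).2 ▸ h.pos w hw
  · obtain ⟨w, hw, rfl⟩ := a e he
    exact (a1 w).2 ▸ h.le w hw fun z e => he' z (e ▸ rfl)
  · obtain ⟨w, hw, rfl⟩ := a e he
    obtain ⟨w', hw', rfl⟩ := a f hf
    rw [(a1 w).1, (a1 w').1] at e1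
    rw [(a1 w).2, (a1 w').2] at e2
    rw [h.inj w w' hw hw' e1 e2]

theorem skew_gammoid [Fintype S] [Fintype V] [DecidableEq S] (hk : 0 < k) {p : Finset S → ℤ}
    (hp : Skew p) (h1 : ∀ X, p X ≤ X.card) (h2 : ∀ X, p X ≤ k) {c : S → Fin k}
    (h : ∀ i, Linked D T s {x | c x = i}) (L : S → Finset ℕ) (hL : ∀ x, k ≤ (L x).card) :
    ∃ c : S → ℕ, (∀ x, c x ∈ L x) ∧ (∀ X, p X ≤ (X.image c).card) ∧
      ∀ i, Linked D T s {x | c x = i} := by
  classical
  choose φ hφ using fun i => (h i).mat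
  obtain ⟨l, l1, l2⟩ := exists_nd hφ
  have b2 : ∀ y, (univ.filter fun e => (l e).1 = y).card ≤ k := fun y =>
    (card_le_card_of_injOn (t := univ) (fun e => (l e).2) (fun _ _ => mem_univ _)
      fun e he f hf h => l1 (Prod.ext ((mem_filter.1 he).2.trans (mem_filter.1 hf).2.symm)
        h)).trans_eq (card_fin k)
  obtain ⟨P, p1, p2, p3, p4, p5⟩ := exists_ext V hk hp h1 h2
  obtain ⟨G, g1, g2, g3⟩ := exists_good p1
  obtain ⟨π, g, lt, s1, s2, s3⟩ := init (fun e => (l e).1) univ G g1 fun X => g3 X _ fun Z hZ =>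
    (p2 Z).trans (by rw [inter_univ]; exact_mod_cast card_le_card hZ)
  have s4 : ∀ e, π e + g e ≤ k + 1 := fun e => (s3 e (mem_univ e)).2.2.2.trans
    (Nat.succ_le_succ (max_le (dd_le hk fun X _ _ => g3 X k fun Z _ => p3 Z) (b2 _)))
  obtain ⟨b, q, s5, s6⟩ := Side.start (s := s) (fun i => (hφ i).1) g
    (fun e => ⟨(s3 e (mem_univ e)).1, (s3 e (mem_univ e)).2.2.1.trans (b2 _)⟩)
    (fun e f he hf e1 => s2 e (mem_univ e) f (mem_univ f)
      ((l2 e he).trans ((congrArg _ e1).trans (l2 f hf).symm)))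
    fun z _ i hi => by
      have a3 := s1.dom g1 (univ.image fun i => .inr (z, i)) (k - i)
      have a4 := g2 (univ.image fun i => .inr (z, i))
      rw [p5] at a4
      refine le_trans (by omega) ((card_le_card (s := ((univ.image fun i => .inr (z, i)) ∩
        univ).filter fun e => k - i < π e) fun e he => ?_).trans
          (card_image_le (f := fun i => .inr (z, i))))
      obtain ⟨e1, e2⟩ := mem_filter.1 he
      obtain ⟨y, -, rfl⟩ := mem_image.1 (mem_inter.1 e1).1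
      have := s4 (.inr (z, y))
      exact mem_image_of_mem _ (mem_filter.2 ⟨mem_univ _, by omega⟩)
  obtain ⟨d, d1, d2, d3⟩ := run_mix hk (Sum.elim L fun _ => ∅) (univ.biUnion L) G univ
    (univ.image .inl) π lt _ _ g1 s1 (subset_univ _) (s5.lift Prod.fst) fun e he => by
      obtain ⟨x, -, rfl⟩ := mem_image.1 he
      simp only [Sum.elim_inl]
      rw [s6, inter_eq_left.2 (subset_biUnion_of_mem L (mem_univ x))]
      exact (s4 _).trans (Nat.succ_le_succ (hL x))
  have h3 : ∀ x : S, Sum.inl x ∈ (univ.image .inl : Finset (S ⊕ V × Fin k)) :=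
    fun x => mem_image_of_mem _ (mem_univ x)
  refine ⟨fun x => d (.inl x), fun x => (mem_inter.1 (d1 _ (h3 x))).1, fun X => ?_, fun i => ?_⟩
  · have a1 := d2 (X.image .inl)
    have a2 : X.image .inl ⊆ (univ.image .inl : Finset (S ⊕ V × Fin k)) :=
      image_subset_image (subset_univ X)
    rw [inter_eq_left.2 a2, image_image,
      disjoint_iff_inter_eq_empty.1 (disjoint_sdiff.mono_left a2), card_empty] at a1
    exact (p4 X).ge.trans ((g2 _).trans (by exact_mod_cast a1))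
  · obtain ⟨n, Q, a1, a2⟩ := d3 i
    exact ⟨fun x => n (.inl x), fun x => Q (.inl x), fun x hx => a1 _ ⟨h3 x, hx⟩,
      fun x hx y hy u hu v hv e => (a2 _ ⟨h3 x, hx⟩ _ ⟨h3 y, hy⟩ u hu v hv e).imp_left
        fun e => Sum.inl_injective e⟩

end Pool.Agent.Lib.MP_ba7882_co
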