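import Pool.Agent.Lib.MP_ba7882_co.Kernel
import Pool.Agent.Lib.MP_ba7882_co.Konig

/-! Edge colourings of bipartite multigraphs and the equitable list colouring theorem. -/

set_option autoImplicit false

namespace Pool.Agent.Lib.MP_ba7882_co

open Finset Function

theorem multi {S α β : Type} [Fintype S] [Fintype α] [Fintype β] [DecidableEq S] [DecidableEq α]
    [DecidableEq β] {k r : ℕ} {l : S → α × Fin k} {ρ : S → β × Fin k} (hl : Injective l)
    (hρ : Injective ρ) (hr : Fintype.card S ≤ k * r) (L : S → Finset ℕ)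
    (hL : ∀ s, k ≤ (L s).card) : ∃ c : S → ℕ, (∀ s, c s ∈ L s) ∧
      (∀ s t, c s = c t → (l s).1 = (l t).1 ∨ (ρ s).1 = (ρ t).1 → s = t) ∧
      ∀ i, (univ.filter fun s => c s = i).card ≤ r := by
  obtain ⟨m, hm⟩ : ∃ m, m = Fintype.card β - r := ⟨_, rfl⟩
  obtain ⟨j⟩ : Nonempty (S ⊕ Fin m × Fin k ↪ β × Fin k) := by
    refine Embedding.nonempty_of_card_le ?_
    have h := Fintype.card_le_of_injective ρ hρ
    simp only [Fintype.card_sum, Fintype.card_prod, Fintype.card_fin] at h ⊢
    rcases le_total r (Fintype.card β) with h' | h'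
    · obtain ⟨d, hd⟩ := Nat.exists_eq_add_of_le h'
      rw [hm, hd, Nat.add_sub_cancel_left]
      linarith
    · rw [hm, Nat.sub_eq_zero_of_le h']
      linarith
  obtain ⟨σ, hσ⟩ := Equiv.Perm.exists_extending_pair (fun s => j (.inl s)) ρ
    (j.injective.comp Sum.inl_injective) hρ
  obtain ⟨a, ha1, ha2⟩ : ∃ a : S ⊕ Fin m × Fin k → α ⊕ Fin m,
      (∀ s, a (.inl s) = .inl (l s).1) ∧ ∀ z, a (.inr z) = .inr z.1 :=
    ⟨Sum.map (fun s => (l s).1) Prod.fst, fun _ => rfl, fun _ => rfl⟩
  obtain ⟨φ, h1, h2⟩ := konig (γ := (α ⊕ Fin m) ⊕ β)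
    (l := fun e => (.inl (a e), e.elim (fun s => (l s).2) Prod.snd))
    (ρ := fun e => (.inr (σ (j e)).1, (σ (j e)).2))
    (by
      rintro (s | z) (t | y) h <;>
        simp only [ha1, ha2, Prod.mk.injEq, Sum.inl.injEq, Sum.inr.injEq, Sum.elim_inl,
          Sum.elim_inr, reduceCtorEq, false_and] at h
      · exact congrArg _ (hl (Prod.ext h.1 h.2))
      · exact congrArg _ (Prod.ext h.1 h.2))
    fun e f h => by
      simp only [Prod.mk.injEq, Sum.inr.injEq] at h
      exact j.injective (σ.injective (Prod.ext h.1 h.2))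
  simp only [Sum.inl.injEq, Sum.inr.injEq] at h2
  have hd : ∀ e, (univ.filter fun f =>
      Dom a (fun e => (σ (j e)).1) (fun e => k - φ e) φ f e).card < k := fun e => by
    refine (card_le_card_of_injOn (t := (range k).erase (φ e)) φ (fun f hf => ?_)
      fun f hf g hg e1 => h2 f g e1 ?_).trans_lt
      ((card_erase_lt_of_mem (mem_range.2 (h1 e))).trans_eq (card_range k))
    · refine mem_coe.2 (mem_erase.2 ⟨fun e1 => ?_, mem_range.2 (h1 f)⟩)
      rcases (mem_filter.1 hf).2 with h | h <;> exact h.2.ne (by simp only [e1])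
    · rcases (mem_filter.1 hf).2 with ⟨h, h3⟩ | ⟨h, h3⟩ <;>
        rcases (mem_filter.1 hg).2 with ⟨h', h4⟩ | ⟨h', h4⟩
      · exact Or.inl (h.trans h'.symm)
      · beta_reduce at h3
        omega
      · beta_reduce at h4
        omega
      · exact Or.inr (h.trans h'.symm)
  have hz : ∀ s, a (.inl s) ∉ (univ.image Sum.inr : Finset (α ⊕ Fin m)) := by simp [ha1]
  obtain ⟨c, c1, c2, c3⟩ := process (a := a) (b := fun e => (σ (j e)).1) (p := fun e => k - φ e)
    (q := φ) (fun e f e1 e2 => h2 e f (by have := h1 e; have := h1 f; omega) (Or.inl e1))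
    (fun e f e1 e2 => h2 e f e2 (Or.inr e1)) (Z := univ.image Sum.inr) (r := r)
    (by rw [card_image_of_injective _ Sum.inr_injective, card_univ, Fintype.card_fin]; omega)
    (Sum.elim L fun _ => ∅) (univ.biUnion L) univ k
    (by
      rintro (s | z) - h
      · rw [Sum.elim_inl, inter_eq_left.2 (subset_biUnion_of_mem L (mem_univ s))]
        exact (hd _).trans_le (hL s)
      · simp [ha2] at h)
    (by
      refine (card_le_card (t := univ.image Sum.inl) ?_).trans (card_image_le.trans hr)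
      rintro (s | z) h
      · exact mem_image_of_mem _ (mem_univ _)
      · simp [ha2] at h)
    fun z hz => by
      obtain ⟨z, -, rfl⟩ := mem_image.1 hz
      have h : k ≤ (univ.filter fun f => a f = .inr z).card :=
        (card_fin k).ge.trans (card_le_card_of_injOn (fun i => .inr (z, i))
          (fun i _ => by simp [ha2]) fun i _ i' _ e => by simpa using e)
      exact ⟨h, fun e _ _ => (hd e).trans_le h⟩
  refine ⟨fun s => c (.inl s), fun s => (mem_inter.1 (c1 _ (mem_univ _) (hz s))).1,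
    fun s t e1 e2 => Sum.inl_injective (c2 _ (mem_univ _) (hz s) _ (mem_univ _) (hz t) e1 ?_),
    fun i => (card_le_card_of_injOn Sum.inl (fun s hs => ?_)
      Sum.inl_injective.injOn).trans (c3 i)⟩
  · refine e2.imp (fun h => by rw [ha1, ha1, h]) fun h => ?_
    rwa [← hσ, ← hσ] at h
  · exact mem_coe.2 (mem_filter.2 ⟨mem_univ _, hz s, (mem_filter.1 hs).2⟩)

end Pool.Agent.Lib.MP_ba7882_co
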