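import Pool.Agent.Lib.MP_ba7882_co.Init
import Pool.Agent.Lib.MP_ba7882_co.Round

/-! Colouring one colour at a time. -/

set_option autoImplicit false

namespace Pool.Agent.Lib.MP_ba7882_co

open Finset

variable {E β : Type} [DecidableEq E] [Fintype E] [Fintype β]

theorem run (b : E → β) (r : ℕ) (L : E → Finset ℕ) (C : Finset ℕ) :
    ∀ (G : Finset E → ℕ) (R T : Finset E) (π q : E → ℕ) (lt : E → E → Prop), Good G →
      Str G R π lt → T ⊆ R → Lab b r T q → (∀ e ∈ T, π e + q e ≤ (L e ∩ C).card + 1) →
      ∃ c : E → ℕ, (∀ e ∈ T, c e ∈ L e ∩ C) ∧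
        (∀ e ∈ T, ∀ f ∈ T, c e = c f → b e = b f → e = f) ∧
        (∀ X, G X ≤ ((X ∩ T).image c).card + (X ∩ (R \ T)).card) ∧
        ∀ i, (T.filter fun e => c e = i).card ≤ r := by
  induction C using Finset.induction_on with
  | empty =>
    intro G R T π q lt hG hs hT hq h
    obtain rfl : T = ∅ := eq_empty_of_forall_notMem fun e he => by
      have h1 := h e he
      have h2 := hs.pos e (hT he)
      have h3 := hq.1 e he
      rw [inter_empty, card_empty] at h1
      omega
    exact ⟨0, by simp, by simp, fun X => by simpa using hs.le_card hG X, by simp⟩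
  | insert i C hi ih =>
    intro G R T π q lt hG hs hT hq h
    classical
    obtain ⟨M, q', m1, m2, m3, m4, m5, m6, m7⟩ := round' (A := T.filter fun e => i ∈ L e)
      (fun x h => (hs.rel hG x x h).1 rfl) (hs.trans hG) hq (filter_subset _ _)
    have m0 : M ⊆ T := m1.trans (filter_subset _ _)
    obtain ⟨σ, hσ⟩ : ∃ σ : E → ℕ, ∀ u, (π u ≤ σ u + 1 ∧ ((∀ w ∈ M, ¬ lt w u) → π u ≤ σ u)) ∧
        σ u ≤ π u ∧ ((∃ w ∈ M, lt w u) → σ u ≤ π u - 1) := by
      refine ⟨fun u => if ∃ w ∈ M, lt w u then π u - 1 else π u, fun u => ?_⟩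
      beta_reduce
      split_ifs with h
      · exact ⟨⟨by omega, fun h' => h.elim fun w hw => (h' w hw.1 hw.2).elim⟩, by omega,
          fun _ => le_rfl⟩
      · exact ⟨⟨by omega, fun _ => le_rfl⟩, le_rfl, fun h' => (h h').elim⟩
    obtain ⟨lt', h1⟩ := hs.reduce hG M (m0.trans hT) m2 σ fun u _ _ => (hσ u).1
    obtain ⟨c, c1, c2, c3, c4⟩ := ih _ _ (T \ M) _ q' lt' (hG.red M) h1
      (sdiff_subset_sdiff hT Subset.rfl) m5 fun e he => by
        obtain ⟨e1, e2⟩ := mem_sdiff.1 he
        have h2 := h e e1
        have h3 := hs.pos e (hT e1)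
        have h4 := m6 e
        have h6 := (hσ e).2.1
        by_cases h5 : i ∈ L e
        · rw [inter_insert_of_mem h5, card_insert_of_notMem (by simp [hi])] at h2
          have := (m7 e (mem_filter.2 ⟨e1, h5⟩) e2).imp_left (hσ e).2.2
          omega
        · rw [inter_insert_of_notMem h5] at h2
          omega
    clear ih h hσ h1 hs hq m2 m5 m6 m7
    have c0 : ∀ e ∈ T, e ∉ M → c e ≠ i := fun e e1 e2 e3 =>
      hi (e3 ▸ (mem_inter.1 (c1 e (mem_sdiff.2 ⟨e1, e2⟩))).2)
    refine ⟨fun e => if e ∈ M then i else c e, fun e he => ?_, fun e he f hf e1 e2 => ?_,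
      fun X => ?_, fun j => ?_⟩
    · have := c1 e
      have := @m1 e
      grind
    · have := c2 e
      have := @m3 e
      have := c0 e
      have := c0 f
      grind
    · have h2 := c3 X
      rw [show (R \ M) \ (T \ M) = R \ T by grind] at h2
      by_cases hd : Disjoint X M
      · have h3 := le_red hG.mono (Subset.refl X) hd
        have h4 := card_le_card (show (X ∩ (T \ M)).image c ⊆
          (X ∩ T).image fun e => if e ∈ M then i else c e by grind)
        omega
      · obtain ⟨x, x1, x2⟩ := not_disjoint_iff.1 hd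
        have h3 := le_red' (Z := X) (Y := X) (K := M) hG.mono subset_union_left
        have h4 := card_le_card (show insert i ((X ∩ (T \ M)).image c) ⊆
          (X ∩ T).image fun e => if e ∈ M then i else c e from insert_subset
            (mem_image.2 ⟨x, mem_inter.2 ⟨x1, m0 x2⟩, if_pos x2⟩) (by grind))
        rw [card_insert_of_notMem (by grind)] at h4
        omega
    · by_cases hj : j = i
      · exact (card_le_card (by grind)).trans m4
      · exact (card_le_card (by grind)).trans (c4 j)

end Pool.Agent.Lib.MP_ba7882_co
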