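import Pool.Agent.Lib.MP_ba7882_co.Bunch

/-! Labels built by inserting elements at the bottom or at the top of their part. -/

set_option autoImplicit false

namespace Pool.Agent.Lib.MP_ba7882_co

open Finset

variable {E : Type} [DecidableEq E] [Fintype E]

/-- Labels `π` on `R` with an order, built one element at a time. -/
inductive Str : (Finset E → ℕ) → Finset E → (E → ℕ) → (E → E → Prop) → Prop
  | nil (G : Finset E → ℕ) (π : E → ℕ) : (∀ X, G X = 0) → Str G ∅ π fun _ _ => False
  | cons (G : Finset E → ℕ) (R : Finset E) (π π' : E → ℕ) (lt : E → E → Prop) (v : E) (b : Prop) :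
      v ∉ R → Str (red G {v}) R π lt → 1 ≤ π' v → (¬ b → dd G v ≤ π' v) →
      (∀ u ∈ R, π u ≤ π' u ∧ (b → Rel G v u → π u < π' u)) →
      Str G (insert v R) π' fun x y => lt x y ∨ x ≠ y ∧ Rel G x y ∧ (b ∧ x = v ∨ ¬ b ∧ y = v)

variable {G : Finset E → ℕ} {R K : Finset E} {π : E → ℕ} {lt : E → E → Prop}

theorem Str.pos (h : Str G R π lt) : ∀ u ∈ R, 1 ≤ π u := by
  induction h with
  | nil => simp
  | cons G R π π' lt v b _ _ h1 _ h2 ih =>
    exact forall_mem_insert _ _ _ |>.2 ⟨h1, fun u hu => (ih u hu).trans (h2 u hu).1⟩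

theorem Str.le_card (h : Str G R π lt) (hG : Good G) : ∀ X, G X ≤ (X ∩ R).card := by
  induction h with
  | nil G π h => simp [h]
  | cons G R π π' lt v b hv _ _ _ _ ih =>
    intro X
    have h1 := ih (hG.red _) X
    by_cases h : v ∈ X
    · rw [inter_insert_of_mem h, card_insert_of_notMem (by simp [hv])]
      have := le_red' (Z := X) (Y := X) (K := {v}) hG.mono subset_union_left
      omega
    · rw [inter_insert_of_notMem h]
      exact (le_red hG.mono Subset.rfl (by simpa using h)).trans h1

theorem Str.dom (h : Str G R π lt) (hG : Good G) :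
    ∀ X j, G X ≤ j + ((X ∩ R).filter fun e => j < π e).card := by
  have h0 : ∀ {G : Finset E → ℕ} {R : Finset E} {π : E → ℕ} {lt : E → E → Prop},
      Str G R π lt → Good G → ∀ X, G X ≤ 0 + ((X ∩ R).filter fun e => 0 < π e).card :=
    fun h hG X => by
      rw [filter_true_of_mem fun e he => Nat.lt_of_succ_le (h.pos e (mem_inter.1 he).2), zero_add]
      exact h.le_card hG X
  induction h with
  | nil G π h => simp [h]
  | cons G R π π' lt v b hv hs h1 h2 h3 ih =>
    intro X j
    rcases j with _ | j
    · exact h0 (.cons G R π π' lt v b hv hs h1 h2 h3) hG X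
    rcases le_or_gt (G X) 1 with h4 | h4
    · omega
    obtain ⟨Z, z1, z2, z3⟩ := exists_eff hG.mono h4
    have h5 := le_red' (Z := Z) (Y := Z) (K := {v}) hG.mono subset_union_left
    have h6 := ih (hG.red _) Z (j + 1)
    by_cases hz : v ∈ Z
    · by_cases hb : b
      · have h7 := ih (hG.red _) Z j
        have := card_le_card (show ((Z ∩ R).filter fun e => j < π e) ⊆
            (X ∩ insert v R).filter fun e => j + 1 < π' e from fun e he => by
          have := (h3 e (by grind)).2 hb ⟨Z, z2, hz, by grind⟩
          grind)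
        omega
      · rcases le_or_gt (π' v) (j + 1) with h7 | h7
        · have := (le_dd z2 hz).trans (h2 hb)
          omega
        · have := card_lt_card (show ((Z ∩ R).filter fun e => j + 1 < π e) ⊂
              (X ∩ insert v R).filter fun e => j + 1 < π' e from ⟨fun e he => by
            have := (h3 e (by grind)).1
            grind, fun h => by have := @h v (by grind); grind⟩)
          omega
    · have := le_red (K := {v}) hG.mono (Subset.refl Z) (by simpa using hz)
      have := card_le_card (show ((Z ∩ R).filter fun e => j + 1 < π e) ⊆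
          (X ∩ insert v R).filter fun e => j + 1 < π' e from fun e he => by
        have := (h3 e (by grind)).1
        grind)
      omega

theorem Str.rel (h : Str G R π lt) (hG : Good G) : ∀ x y, lt x y → x ≠ y ∧ Rel G x y := by
  induction h with
  | nil => simp
  | cons G R π π' lt v b _ _ _ _ _ ih =>
    rintro x y (h | h)
    · exact ⟨(ih (hG.red _) x y h).1, ((ih (hG.red _) x y h).2.of_red hG).1⟩
    · exact ⟨h.1, h.2.1⟩

theorem Str.trans (h : Str G R π lt) (hG : Good G) : ∀ x y z, lt x y → lt y z → lt x z := by
  induction h with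
  | nil => simp
  | cons G R π π' lt v b _ hs _ _ _ ih =>
    have h1 := fun x y h => (hs.rel (hG.red _) x y h).2.of_red hG
    simp only [mem_singleton] at h1
    rintro x y z (h | ⟨h, h', h''⟩) (g | ⟨g, g', g''⟩)
    · exact Or.inl (ih (hG.red _) x y z h g)
    · obtain ⟨a1, a2, a3⟩ := h1 x y h
      exact Or.inr ⟨by grind, a1.trans hG g', by grind⟩
    · obtain ⟨a1, a2, a3⟩ := h1 y z g
      exact Or.inr ⟨by grind, h'.trans hG a1, by grind⟩
    · grind

theorem Str.reduce (h : Str G R π lt) (hG : Good G) : ∀ K ⊆ R, (∀ x ∈ K, ∀ y ∈ K, ¬ lt x y) →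
    ∀ σ : E → ℕ, (∀ u ∈ R, u ∉ K → π u ≤ σ u + 1 ∧ ((∀ w ∈ K, ¬ lt w u) → π u ≤ σ u)) →
      ∃ lt', Str (red G K) (R \ K) σ lt' := by
  induction h with
  | nil G π h =>
    intro K hK _ σ _
    rw [subset_empty.1 hK, red_empty, sdiff_empty]
    exact ⟨_, .nil G σ h⟩
  | cons G R π π' lt v b hv hs h1 h2 h3 ih =>
    intro K hK ha σ hσ
    classical
    have h4 := fun x y h => (hs.rel (hG.red _) x y h).2.of_red hG
    simp only [mem_singleton] at h4
    by_cases hk : v ∈ K
    · have h5 : ∀ w ∈ K.erase v, ¬ Rel G v w := fun w hw hr => by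
        have a1 := ha v hk w (mem_of_mem_erase hw)
        have a2 := ha w (mem_of_mem_erase hw) v hk
        have a3 := hr.symm
        grind
      obtain ⟨lt', h6⟩ := ih (hG.red _) (K.erase v) (by grind) (by grind) σ fun u hu hu' => by
        have a1 := hσ u (by grind) (by grind)
        have a2 := h3 u hu
        refine ⟨by omega, fun h => ?_⟩
        by_cases a3 : b ∧ Rel G v u
        · have := a2.2 a3.1 a3.2
          omega
        · refine a2.1.trans (a1.2 fun w hw => ?_)
          have := h4 w u
          have := h w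
          grind
      rw [red_red hG.mono h5, insert_erase hk, show R \ K.erase v = insert v R \ K by grind] at h6
      exact ⟨_, h6⟩
    · obtain ⟨lt', h6⟩ := ih (hG.red _) K (by grind) (by grind)
        (fun u => if b ∧ Rel G v u then σ u - 1 else σ u) fun u hu hu' => by
          have a1 := hσ u (by grind) hu'
          have a2 := h3 u hu
          have a3 : (∀ w ∈ K, ¬ lt w u) → π' u ≤ σ u := fun h => a1.2 fun w hw => by
            have := h w hw
            grind
          grind
      rw [red_comm hk] at h6
      rw [show insert v R \ K = insert v (R \ K) by grind]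
      have a1 := hσ v (mem_insert_self _ _) hk
      have a2 : (∀ w ∈ K, ¬ (¬ b ∧ Rel G w v)) → π' v ≤ σ v := fun h => a1.2 fun w hw => by
        have := h w hw
        have := h4 w v
        grind
      have a3 : ¬ b → dd (red G K) v ≤ σ v := fun hb => by
        by_cases h : ∃ w ∈ K, Rel G w v
        · obtain ⟨w, hw, h⟩ := h
          have := dd_red_lt hG hw h.symm
          have := h2 hb
          omega
        · exact (dd_red_le hG).trans ((h2 hb).trans (a2 (by grind)))
      refine ⟨_, .cons _ _ _ σ lt' v b (by grind) h6 ?_ a3 fun u hu => ⟨by grind, fun hb h => ?_⟩⟩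
      · by_cases hb : b
        · exact h1.trans (a2 (by grind))
        · exact one_le_dd.trans (a3 hb)
      · have := h6.pos u hu
        have := (h.of_red hG).1
        grind

theorem Str.insert_many (b : Prop) : ∀ (K : Finset E) {G : Finset E → ℕ}, Good G →
    Str (red G K) R π lt → Disjoint K R → (∀ v ∈ K, ∀ w ∈ K, Rel G v w → v = w) →
    ∀ σ : E → ℕ, (∀ v ∈ K, 1 ≤ σ v ∧ (¬ b → dd G v ≤ σ v)) →
      (∀ u ∈ R, π u ≤ σ u ∧ (b → (∃ v ∈ K, Rel G v u) → π u < σ u)) →
      ∃ lt', Str G (K ∪ R) σ lt' := by
  intro K
  induction K using Finset.induction_on with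
  | empty =>
    intro G hG hs _ _ σ _ h
    rw [red_empty] at hs
    obtain ⟨lt', h1⟩ := hs.reduce hG ∅ (empty_subset _) (by simp) σ fun u hu _ => by
      have := (h u hu).1
      exact ⟨by omega, fun _ => this⟩
    rw [red_empty, sdiff_empty] at h1
    exact ⟨lt', by rwa [empty_union]⟩
  | insert v K hv ih =>
    intro G hG hs hd hK σ h1 h2
    classical
    have h3 : ∀ w ∈ K, ¬ Rel G v w := fun w hw h => by
      have := hK v (by grind) w (by grind) h
      grind
    rw [← red_red hG.mono h3] at hs
    rw [disjoint_left] at hd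
    obtain ⟨lt', h4⟩ := ih (hG.red _) hs (disjoint_left.2 (by grind))
      (fun x hx y hy h => hK x (by grind) y (by grind) (h.of_red hG).1)
      (fun u => if b ∧ Rel G v u then σ u - 1 else σ u)
      (fun w hw => by
        have a1 := h1 w (by grind)
        have a2 := h3 w hw
        have a3 := dd_red_le (K := {v}) (u := w) hG
        grind)
      fun u hu => by
        have a1 := h2 u hu
        refine ⟨by grind, fun hb ⟨w, hw, h⟩ => ?_⟩
        have a2 := (h.of_red hG).1
        have a3 : ¬ Rel G v u := fun h' => h3 w hw (h'.trans hG a2.symm)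
        have := a1.2 hb ⟨w, by grind, a2⟩
        grind
    rw [insert_union]
    refine ⟨_, .cons _ _ _ σ lt' v b (by grind) h4 (h1 v (by grind)).1 (h1 v (by grind)).2
      fun u hu => ⟨by grind, fun hb h => ?_⟩⟩
    have := h4.pos u hu
    grind

end Pool.Agent.Lib.MP_ba7882_co
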