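import Pool.Agent.Lib.MP_ba7882_co.Mix

/-! The truncated partition matroid as a gammoid. -/

set_option autoImplicit false

namespace Pool.Agent.Lib.MP_ba7882_co

open Finset Function

variable {S β : Type}

theorem exists_trunc [Finite β] (a : S → β) (r : ℕ) :
    ∃ M : Matroid S, ∀ I, M.Indep I ↔ Set.InjOn a I ∧ I.ncard ≤ r :=
  ⟨(IndepMatroid.ofFinite (Set.finite_univ (α := β)) (fun J => J.ncard ≤ r) (by simp)
    (fun I J h e => (Set.ncard_le_ncard e).trans h)
    (fun I J _ hJ h => by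
      obtain ⟨e, e1, e2⟩ := Set.exists_mem_notMem_of_ncard_lt_ncard h
      exact ⟨e, e1, e2, (Set.ncard_insert_le e I).trans (h.trans_le hJ)⟩)
    fun _ _ => Set.subset_univ _).matroid.comap a, fun _ =>
      and_comm.trans (and_congr_right fun h => Iff.of_eq (congrArg (· ≤ r) h.ncard_image))⟩

theorem trunc_linked [Finite S] (a : S → β) (r : ℕ) (I : Set S) :
    Set.InjOn a I ∧ I.ncard ≤ r ↔ Linked (V := S ⊕ β ⊕ Fin r)
      (fun u v => (∃ x, u = .inl x ∧ v = .inr (.inl (a x))) ∨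
        ∃ y j, u = .inr (.inl y) ∧ v = .inr (.inr j))
      (Set.range fun j => .inr (.inr j)) .inl I := by
  have h0 : (Set.range fun j : Fin r => (.inr (.inr j) : S ⊕ β ⊕ Fin r)).ncard = r := by
    rw [Set.ncard_range_of_injective fun i j e => by simpa using e]
    simp
  refine ⟨fun ⟨h1, h2⟩ => ?_, fun ⟨n, P, h1, h2⟩ => ⟨fun x hx y hy e => ?_, ?_⟩⟩
  · rcases I.eq_empty_or_nonempty with rfl | ⟨x, -⟩
    · exact Linked.empty
    have : Nonempty (S ⊕ β ⊕ Fin r) := ⟨.inl x⟩
    obtain ⟨g, g1, g2⟩ := I.toFinite.exists_injOn_of_encard_le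
      (t := Set.range fun j : Fin r => (.inr (.inr j) : S ⊕ β ⊕ Fin r)) (by
        rw [← I.toFinite.cast_ncard_eq, ← (Set.finite_range _).cast_ncard_eq, h0]
        exact_mod_cast h2)
    refine ⟨2, fun x i => if i = 0 then .inl x else if i = 1 then .inr (.inl (a x)) else g x,
      fun x hx => ⟨rfl, g1 hx, fun i hi => ?_⟩, fun x hx y hy i hi j hj e => ?_⟩
    · obtain ⟨j, hj⟩ := g1 hx
      change i < 2 at hi
      interval_cases i <;> simp [← hj]
    · obtain ⟨u, hu⟩ := g1 hx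
      obtain ⟨v, hv⟩ := g1 hy
      have a1 := h1 hx hy
      have a2 := g2 hx hy
      rw [← hu, ← hv] at a2
      change i ≤ 2 at hi
      change j ≤ 2 at hj
      interval_cases i <;> interval_cases j <;> simp [← hu, ← hv] at e a2 ⊢ <;>
        first | exact e | exact a1 e | exact a2 e
  · have a1 : ∀ x ∈ I, 1 ≤ n x ∧ P x 1 = .inr (.inl (a x)) := fun x hx => by
      obtain ⟨b1, ⟨j, b2⟩, b3⟩ := h1 x hx
      have b4 : 0 < n x := Nat.pos_of_ne_zero fun h => by
        rw [h, b1] at b2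
        cases b2
      have b5 := b3 0 b4
      rw [b1] at b5
      exact ⟨b4, by simpa using b5⟩
    exact (h2 x hx y hy 1 (a1 x hx).1 1 (a1 y hy).1 (by rw [(a1 x hx).2, (a1 y hy).2, e])).1
  · exact (Set.ncard_le_ncard_of_injOn (fun x => P x (n x)) (fun x hx => (h1 x hx).2.1)
      (fun x hx y hy e => (h2 x hx y hy _ le_rfl _ le_rfl e).1) (Set.finite_range _)).trans_eq h0

theorem trunc_cover [Fintype S] [Fintype β] {k r : ℕ} {ρ : S → β × Fin k} (hρ : Injective ρ)
    (hr : Fintype.card S ≤ k * r) : ∃ c : S → Fin k, ∀ i,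
      Set.InjOn (fun x => (ρ x).1) {x | c x = i} ∧ {x | c x = i}.ncard ≤ r := by
  classical
  obtain ⟨σ⟩ : Nonempty (S ↪ Fin r × Fin k) :=
    Embedding.nonempty_of_card_le (by simpa [mul_comm] using hr)
  obtain ⟨φ, h1, h2⟩ := konig (γ := β ⊕ Fin r) (l := fun x => (ρ x).map .inl id)
    (ρ := fun x => (σ x).map .inr id) ((Sum.inl_injective.prodMap injective_id).comp hρ)
    ((Sum.inr_injective.prodMap injective_id).comp σ.injective)
  refine ⟨fun x => ⟨φ x, h1 x⟩, fun i => ⟨fun x hx y hy e => h2 x y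
    (congrArg Fin.val (hx.trans hy.symm)) (Or.inl (congrArg Sum.inl e)), ?_⟩⟩
  exact (Set.ncard_le_ncard_of_injOn (t := Set.univ) (fun x => (σ x).1) (fun _ _ => trivial)
    fun x hx y hy e => h2 x y (congrArg Fin.val (hx.trans hy.symm))
      (Or.inr (congrArg Sum.inr e))).trans_eq (by simp)

end Pool.Agent.Lib.MP_ba7882_co
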